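import Mathlib

/-!
# Many real algebraic integers of given degree and bounded height
-/

set_option autoImplicit false

namespace Pool.Agent.V8H9.LD

open Finset Polynomial

/-- the polynomial `X ^ (n + 1) + ∑ a i X ^ i` -/
noncomputable def mono {n : ℕ} (a : Fin (n + 1) → ℤ) : ℤ[X] :=
  X ^ (n + 1) + ∑ i : Fin (n + 1), C (a i) * X ^ (i : ℕ)

theorem mono_low {n : ℕ} (a : Fin (n + 1) → ℤ) :
    (∑ i : Fin (n + 1), C (a i) * X ^ (i : ℕ) : ℤ[X]).degree < ((n + 1 : ℕ) : WithBot ℕ) :=
  degree_sum_fin_lt a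

theorem mono_monic {n : ℕ} (a : Fin (n + 1) → ℤ) : (mono a).Monic := by
  unfold mono
  exact monic_X_pow_add (mono_low a)

theorem mono_natDegree {n : ℕ} (a : Fin (n + 1) → ℤ) : (mono a).natDegree = n + 1 := by
  unfold mono
  apply natDegree_eq_of_degree_eq_some
  rw [degree_add_eq_left_of_degree_lt]
  · rw [degree_X_pow]
  · rw [degree_X_pow]
    exact mono_low a

theorem mono_coeff {n : ℕ} (a : Fin (n + 1) → ℤ) (i : Fin (n + 1)) :
    (mono a).coeff i = a i := by
  unfold mono
  rw [coeff_add, coeff_X_pow, if_neg (by have := i.2; omega), zero_add, finset_sum_coeff]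
  rw [Finset.sum_eq_single i]
  · simp
  · intro j _ hj
    rw [coeff_C_mul, coeff_X_pow, if_neg (fun h => hj (Fin.ext h.symm)), mul_zero]
  · intro h
    exact absurd (mem_univ _) h

theorem mono_coeff_le {n H : ℕ} (hH : 1 ≤ H) (a : Fin (n + 1) → ℤ) (ha : ∀ i, |a i| ≤ (H : ℤ))
    (i : ℕ) : |(mono a).coeff i| ≤ (H : ℤ) := by
  rcases lt_trichotomy i (n + 1) with h | h | h
  · have := mono_coeff a ⟨i, h⟩
    simp only at this
    rw [this]
    exact ha _
  · have h1 : (mono a).coeff i = 1 := by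
      rw [h, ← mono_natDegree a]
      exact mono_monic a
    rw [h1, abs_one]
    exact_mod_cast hH
  · rw [coeff_eq_zero_of_natDegree_lt (by rw [mono_natDegree]; exact h), abs_zero]
    positivity

theorem mono_irreducible {n : ℕ} (a : Fin (n + 1) → ℤ) (h0 : ∃ k, a 0 = 4 * k + 2)
    (h : ∀ i, ∃ k, a i = 2 * k) : Irreducible ((mono a).map (Int.castRingHom ℚ)) := by
  have hm := mono_monic a
  have h1 : Irreducible (mono a) := by
    have hprime : (Ideal.span {(2 : ℤ)}).IsPrime := by
      rw [Ideal.span_singleton_prime (by norm_num)]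
      exact Int.prime_two
    apply irreducible_of_eisenstein_criterion (P := Ideal.span {(2 : ℤ)}) hprime
    · rw [hm.leadingCoeff, Ideal.mem_span_singleton]
      norm_num
    · intro i hi
      rw [degree_eq_natDegree hm.ne_zero, mono_natDegree] at hi
      have hi' : i < n + 1 := by exact_mod_cast hi
      have h2 := mono_coeff a ⟨i, hi'⟩
      simp only at h2
      rw [h2, Ideal.mem_span_singleton]
      obtain ⟨k, hk⟩ := h ⟨i, hi'⟩
      exact ⟨k, hk⟩
    · rw [degree_eq_natDegree hm.ne_zero, mono_natDegree]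
      exact_mod_cast Nat.succ_pos n
    · have h2 := mono_coeff a 0
      simp only [Fin.val_zero] at h2
      rw [h2, Ideal.span_singleton_pow, Ideal.mem_span_singleton]
      obtain ⟨k, hk⟩ := h0
      rw [hk]
      omega
    · exact hm.isPrimitive
  exact (hm.irreducible_iff_irreducible_map_fraction_map (K := ℚ)).mp h1

theorem mono_aeval {n : ℕ} (a : Fin (n + 1) → ℤ) (x : ℝ) :
    aeval x (mono a) = x ^ (n + 1) + ∑ i, (a i : ℝ) * x ^ (i : ℕ) := by
  unfold mono
  simp [map_sum]

/-- a root between zero and one -/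
theorem mono_root {n : ℕ} (a : Fin (n + 1) → ℤ) (h0 : a 0 < 0) (h1 : 0 < 1 + ∑ i, a i) :
    ∃ x : ℝ, 0 ≤ x ∧ x ≤ 1 ∧ aeval x (mono a) = 0 := by
  have hcont : ContinuousOn (fun x : ℝ => aeval x (mono a)) (Set.Icc 0 1) :=
    (Polynomial.continuous_aeval (mono a)).continuousOn
  have hz : aeval (0 : ℝ) (mono a) = (a 0 : ℝ) := by
    rw [mono_aeval, Fin.sum_univ_succ]
    simp
  have ho : aeval (1 : ℝ) (mono a) = ((1 + ∑ i, a i : ℤ) : ℝ) := by
    rw [mono_aeval]
    simp
  have h := intermediate_value_Icc (zero_le_one' ℝ) hcont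
  have h2 : (0 : ℝ) ∈ Set.Icc (aeval (0 : ℝ) (mono a)) (aeval (1 : ℝ) (mono a)) := by
    rw [hz, ho]
    constructor
    · exact_mod_cast h0.le
    · exact_mod_cast h1.le
  obtain ⟨x, hx, hx0⟩ := h h2
  exact ⟨x, hx.1, hx.2, hx0⟩

theorem mono_inj {n : ℕ} (a b : Fin (n + 1) → ℤ) (ha : Irreducible ((mono a).map (Int.castRingHom ℚ)))
    (hb : Irreducible ((mono b).map (Int.castRingHom ℚ))) (x : ℝ) (hxa : aeval x (mono a) = 0)
    (hxb : aeval x (mono b) = 0) : a = b := by
  have h1 : (mono a).map (Int.castRingHom ℚ) = minpoly ℚ x := by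
    apply minpoly.eq_of_irreducible_of_monic ha _ ((mono_monic a).map _)
    have : (mono a).map (Int.castRingHom ℚ) = (mono a).map (algebraMap ℤ ℚ) := rfl
    rw [this, aeval_map_algebraMap]
    exact hxa
  have h2 : (mono b).map (Int.castRingHom ℚ) = minpoly ℚ x := by
    apply minpoly.eq_of_irreducible_of_monic hb _ ((mono_monic b).map _)
    have : (mono b).map (Int.castRingHom ℚ) = (mono b).map (algebraMap ℤ ℚ) := rfl
    rw [this, aeval_map_algebraMap]
    exact hxb
  have h3 : mono a = mono b :=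
    map_injective _ (RingHom.injective_int (Int.castRingHom ℚ)) (h1.trans h2.symm)
  funext i
  rw [← mono_coeff a i, ← mono_coeff b i, h3]

/-- many algebraic integers between zero and one -/
theorem many (n H : ℕ) (hn : 1 ≤ n) (hH : 8 ≤ H) (S : Set ℝ) (hS : S.Finite)
    (hmem : ∀ (P : ℤ[X]) (x : ℝ), P.Monic → P.natDegree = n + 1 → (∀ i, |P.coeff i| ≤ (H : ℤ)) →
      Irreducible (P.map (Int.castRingHom ℚ)) → aeval x P = 0 → 0 ≤ x → x ≤ 1 → x ∈ S) :
    ((H : ℝ) / 16) ^ (n + 1) ≤ (S.ncard : ℝ) := by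
  classical
  set m : ℕ := H / 8 with hm
  have hm1 : 1 ≤ m := by omega
  have hm8 : 8 * m ≤ H := by omega
  have hm16 : H ≤ 16 * m := by omega
  -- the coefficients
  set f : (Fin (n + 1) → Fin m) → (Fin (n + 1) → ℤ) := fun b i =>
    if i = 0 then -(4 * ((b i : ℕ) : ℤ) + 2) else 2 * (2 * m + ((b i : ℕ) : ℤ)) with hf
  have hf0 : ∀ b, f b 0 = -(4 * ((b 0 : ℕ) : ℤ) + 2) := fun b => by simp [hf]
  have hfi : ∀ b i, i ≠ 0 → f b i = 2 * (2 * m + ((b i : ℕ) : ℤ)) := fun b i hi => by
    simp [hf, hi]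
  have hirr : ∀ b, Irreducible ((mono (f b)).map (Int.castRingHom ℚ)) := by
    intro b
    apply mono_irreducible
    · rw [hf0]
      exact ⟨-((b 0 : ℕ) : ℤ) - 1, by ring⟩
    · intro i
      by_cases hi : i = 0
      · subst hi
        rw [hf0]
        exact ⟨-(2 * ((b 0 : ℕ) : ℤ)) - 1, by ring⟩
      · rw [hfi b i hi]
        exact ⟨_, rfl⟩
  have hle : ∀ b i, |f b i| ≤ (H : ℤ) := by
    intro b i
    have h1 := (b i).2
    by_cases hi : i = 0
    · subst hi
      rw [hf0, abs_neg, abs_of_nonneg (by positivity)]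
      omega
    · rw [hfi b i hi, abs_of_nonneg (by positivity)]
      omega
  have hroot : ∀ b, ∃ x : ℝ, 0 ≤ x ∧ x ≤ 1 ∧ aeval x (mono (f b)) = 0 := by
    intro b
    apply mono_root
    · rw [hf0]
      omega
    · obtain ⟨k, rfl⟩ : ∃ k, n = k + 1 := ⟨n - 1, by omega⟩
      rw [Fin.sum_univ_succ, Fin.sum_univ_succ]
      have h1 : f b 0 + f b (Fin.succ 0) ≥ 0 := by
        rw [hf0, hfi b _ (Fin.succ_ne_zero _)]
        have h2 := (b 0).2
        omega
      have h2 : 0 ≤ ∑ i : Fin k, f b (Fin.succ (Fin.succ i)) := by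
        apply Finset.sum_nonneg
        intro i _
        rw [hfi b _ (Fin.succ_ne_zero _)]
        positivity
      simp only [Fin.succ_zero_eq_one] at h1 ⊢
      linarith
  choose r hr0 hr1 hr using hroot
  have hfinj : Function.Injective f := by
    intro b b' h
    funext i
    have h1 := congrFun h i
    apply Fin.ext
    by_cases hi : i = 0
    · subst hi
      rw [hf0, hf0] at h1
      omega
    · rw [hfi b i hi, hfi b' i hi] at h1
      omega
  have hrinj : Function.Injective r := by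
    intro b b' h
    apply hfinj
    apply mono_inj (f b) (f b') (hirr b) (hirr b') (r b) (hr b)
    rw [h]
    exact hr b'
  have h1 : ((univ : Finset (Fin (n + 1) → Fin m)).image r).card = m ^ (n + 1) := by
    rw [Finset.card_image_of_injective _ hrinj, card_univ]
    simp
  have h2 : (((univ : Finset (Fin (n + 1) → Fin m)).image r : Finset ℝ) : Set ℝ) ⊆ S := by
    intro x hx
    rw [Finset.mem_coe, Finset.mem_image] at hx
    obtain ⟨b, _, rfl⟩ := hx
    exact hmem (mono (f b)) (r b) (mono_monic _) (mono_natDegree _)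
      (mono_coeff_le (by omega) _ (hle b)) (hirr b) (hr b) (hr0 b) (hr1 b)
  have h3 := Set.ncard_le_ncard h2 hS
  rw [Set.ncard_coe_finset, h1] at h3
  have h4 : ((H : ℝ) / 16) ^ (n + 1) ≤ (m : ℝ) ^ (n + 1) := by
    apply pow_le_pow_left₀ (by positivity)
    rw [div_le_iff₀ (by norm_num)]
    have : (H : ℝ) ≤ ((16 * m : ℕ) : ℝ) := by exact_mod_cast hm16
    push_cast at this
    linarith
  refine h4.trans ?_
  exact_mod_cast h3

end Pool.Agent.V8H9.LD
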