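import Pool.Agent.V8H9.LC.Core

/-!
# Counting solutions of triangular inequalities
-/

set_option autoImplicit false

namespace Pool.Agent.V8H9.LD

open Finset Pool.Agent.V8H9.LC

/-- integers in an interval -/
theorem card_int (y r : ℝ) (hr : 0 ≤ r) (S : Finset ℤ) (h : ∀ x ∈ S, |y + (x : ℝ)| ≤ r) :
    (S.card : ℝ) ≤ 2 * r + 1 := by
  have hsub : S ⊆ Icc ⌈-y - r⌉ ⌊-y + r⌋ := by
    intro x hx
    have h1 := h x hx
    rw [abs_le] at h1
    rw [mem_Icc, Int.ceil_le, Int.le_floor]
    constructor <;> linarith [h1.1, h1.2]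
  have h1 : (S.card : ℝ) ≤ (((Icc ⌈-y - r⌉ ⌊-y + r⌋).card : ℕ) : ℝ) := by
    exact_mod_cast Finset.card_le_card hsub
  refine h1.trans ?_
  rw [Int.card_Icc]
  have h2 := Int.le_ceil (-y - r)
  have h3 := Int.floor_le (-y + r)
  have h4 : (((⌊-y + r⌋ + 1 - ⌈-y - r⌉).toNat : ℕ) : ℤ) = max (⌊-y + r⌋ + 1 - ⌈-y - r⌉) 0 :=
    Int.toNat_eq_max _
  have h5 : (((⌊-y + r⌋ + 1 - ⌈-y - r⌉).toNat : ℕ) : ℝ) =
      ((max (⌊-y + r⌋ + 1 - ⌈-y - r⌉) 0 : ℤ) : ℝ) := by
    exact_mod_cast congrArg (fun z : ℤ => (z : ℝ)) h4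
  rw [h5]
  push_cast
  apply max_le
  · linarith
  · linarith

/-- solutions of a triangular inequality -/
theorem tri_count (B : ℝ) (hB : 1 ≤ B) (k : ℕ) : ∃ C : ℝ, 0 < C ∧ ∀ H u : ℝ, 1 ≤ H →
    1 / (B * H) ≤ |u| → |u| ≤ B / H → ∀ t η : ℝ, 0 < η → ∀ S : Finset (Fin (k + 1) → ℤ),
      (∀ F ∈ S, (∀ i, |(F i : ℝ)| ≤ H) ∧ |t + ∑ i, (F i : ℝ) * u ^ (i : ℕ)| ≤ η) →
      (S.card : ℝ) ≤ C * (1 + η * H ^ k) := by
  classical
  induction k with
  | zero =>
    refine ⟨2, by norm_num, ?_⟩
    intro H u hH _ _ t η hη S hS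
    have h1 : (S.card : ℝ) = ((S.image (fun F : Fin 1 → ℤ => F 0)).card : ℝ) := by
      rw [Finset.card_image_of_injective]
      intro F F' h
      funext i
      have hi : i = 0 := Subsingleton.elim _ _
      rw [hi]
      exact h
    rw [h1]
    have h2 := card_int t η hη.le (S.image (fun F : Fin 1 → ℤ => F 0)) (by
      intro x hx
      rw [Finset.mem_image] at hx
      obtain ⟨F, hF, rfl⟩ := hx
      have h3 := (hS F hF).2
      simpa using h3)
    rw [pow_zero]
    linarith
  | succ k ih =>
    obtain ⟨C, hC, hih⟩ := ih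
    set M0 : ℝ := 1 + (k + 1) * B ^ (k + 1) with hM0
    have hM00 : 0 < M0 := by positivity
    refine ⟨3 ^ (k + 2) + (2 * M0 + 1) * (C * B), by positivity, ?_⟩
    intro H u hH hu1 hu2 t η hη S hS
    have hH0 : 0 < H := by linarith
    have hu0 : 0 < |u| := lt_of_lt_of_le (by positivity) hu1
    have hune : u ≠ 0 := abs_pos.mp hu0
    have hsplit : ∀ F : Fin (k + 1 + 1) → ℤ, ∑ i, (F i : ℝ) * u ^ (i : ℕ) =
        (F 0 : ℝ) + u * ∑ i : Fin (k + 1), ((Fin.tail F) i : ℝ) * u ^ (i : ℕ) := by
      intro F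
      rw [Fin.sum_univ_succ, Finset.mul_sum]
      congr 1
      · simp
      · apply Finset.sum_congr rfl
        intro i _
        simp only [Fin.val_succ, Fin.tail]
        rw [pow_succ]
        ring
    rcases lt_or_ge 1 η with hη1 | hη1
    · -- large `η`
      have h1 : S.card ≤ ⌊2 * η + 1⌋₊ * (S.image (fun F : Fin (k + 1 + 1) → ℤ => Fin.tail F)).card := by
        apply Finset.card_le_mul_card_image
        intro y _
        apply Nat.le_floor
        have h2 : ((S.filter (fun F : Fin (k + 1 + 1) → ℤ => Fin.tail F = y)).card : ℝ) =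
            (((S.filter (fun F : Fin (k + 1 + 1) → ℤ => Fin.tail F = y)).image
              (fun F : Fin (k + 1 + 1) → ℤ => F 0)).card : ℝ) := by
          rw [Finset.card_image_of_injOn]
          intro F hF F' hF' h
          rw [Finset.mem_coe, Finset.mem_filter] at hF hF'
          rw [← Fin.cons_self_tail F, ← Fin.cons_self_tail F', hF.2, hF'.2]
          simp only at h
          rw [h]
        rw [h2]
        apply card_int (t + u * ∑ i : Fin (k + 1), (y i : ℝ) * u ^ (i : ℕ)) η hη.le
        intro x hx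
        rw [Finset.mem_image] at hx
        obtain ⟨F, hF, rfl⟩ := hx
        rw [Finset.mem_filter] at hF
        have h3 := (hS F hF.1).2
        rw [hsplit, hF.2] at h3
        have h4 : t + u * ∑ i : Fin (k + 1), (y i : ℝ) * u ^ (i : ℕ) + (F 0 : ℝ) =
          t + ((F 0 : ℝ) + u * ∑ i : Fin (k + 1), (y i : ℝ) * u ^ (i : ℕ)) := by ring
        rw [h4]
        exact h3
      have h2 := box_count (n := k) H hH (S.image (fun F : Fin (k + 1 + 1) → ℤ => Fin.tail F)) (by
        intro G hG i
        rw [Finset.mem_image] at hG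
        obtain ⟨F, hF, rfl⟩ := hG
        exact (hS F hF).1 _)
      have h3 : (S.card : ℝ) ≤ (2 * η + 1) * (3 ^ (k + 1) * H ^ (k + 1)) := by
        have h4 : (S.card : ℝ) ≤ ((⌊2 * η + 1⌋₊ : ℕ) : ℝ) *
            ((S.image (fun F : Fin (k + 1 + 1) → ℤ => Fin.tail F)).card : ℝ) := by
          exact_mod_cast h1
        refine h4.trans ?_
        apply mul_le_mul (Nat.floor_le (by positivity)) h2 (by positivity) (by positivity)
      have h5 : (2 * η + 1) * (3 ^ (k + 1) * H ^ (k + 1)) ≤ 3 ^ (k + 2) * (η * H ^ (k + 1)) := by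
        have h6 : 0 ≤ (3 : ℝ) ^ (k + 1) * H ^ (k + 1) := by positivity
        have h7 : (3 : ℝ) ^ (k + 2) = 3 * 3 ^ (k + 1) := by ring
        rw [h7]
        nlinarith
      have h6 : 0 ≤ (3 : ℝ) ^ (k + 2) := by positivity
      have h7 : 0 ≤ (2 * M0 + 1) * (C * B) * (1 + η * H ^ (k + 1)) := by positivity
      nlinarith
    · -- small `η`
      have hF0 : ∀ F ∈ S, |t + (F 0 : ℝ)| ≤ M0 := by
        intro F hF
        obtain ⟨h1, h2⟩ := hS F hF
        rw [hsplit] at h2
        have h3 : |u * ∑ i : Fin (k + 1), ((Fin.tail F) i : ℝ) * u ^ (i : ℕ)| ≤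
            (k + 1) * B ^ (k + 1) := by
          rw [Finset.mul_sum]
          refine (Finset.abs_sum_le_sum_abs _ _).trans ?_
          calc ∑ i : Fin (k + 1), |u * (((Fin.tail F) i : ℝ) * u ^ (i : ℕ))|
              ≤ ∑ _i : Fin (k + 1), B ^ (k + 1) := by
                apply Finset.sum_le_sum
                intro i _
                have h4 : |((Fin.tail F) i : ℝ)| ≤ H := h1 _
                have h5 : |u| ^ ((i : ℕ) + 1) ≤ B ^ (k + 1) / H := by
                  calc |u| ^ ((i : ℕ) + 1) ≤ (B / H) ^ ((i : ℕ) + 1) :=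
                        pow_le_pow_left₀ (abs_nonneg _) hu2 _
                    _ = B ^ ((i : ℕ) + 1) / H ^ ((i : ℕ) + 1) := div_pow _ _ _
                    _ ≤ B ^ (k + 1) / H := by
                        apply div_le_div₀ (by positivity)
                          (pow_le_pow_right₀ hB (by have := i.2; omega)) hH0
                        calc H = H ^ 1 := (pow_one H).symm
                          _ ≤ H ^ ((i : ℕ) + 1) := pow_le_pow_right₀ hH (by omega)
                have h6 : |u * (((Fin.tail F) i : ℝ) * u ^ (i : ℕ))| =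
                    |((Fin.tail F) i : ℝ)| * |u| ^ ((i : ℕ) + 1) := by
                  rw [abs_mul, abs_mul, abs_pow, pow_succ]
                  ring
                rw [h6]
                calc |((Fin.tail F) i : ℝ)| * |u| ^ ((i : ℕ) + 1) ≤ H * (B ^ (k + 1) / H) :=
                      mul_le_mul h4 h5 (by positivity) hH0.le
                  _ = B ^ (k + 1) := by field_simp
            _ = (k + 1) * B ^ (k + 1) := by
                rw [Finset.sum_const, card_univ, Fintype.card_fin, nsmul_eq_mul]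
                push_cast
                ring
        have h4 : t + (F 0 : ℝ) = (t + ((F 0 : ℝ) + u * ∑ i : Fin (k + 1),
            ((Fin.tail F) i : ℝ) * u ^ (i : ℕ))) - u * ∑ i : Fin (k + 1),
            ((Fin.tail F) i : ℝ) * u ^ (i : ℕ) := by ring
        rw [h4]
        refine (abs_sub _ _).trans ?_
        rw [hM0]
        linarith
      set V : Finset ℤ := S.image (fun F : Fin (k + 1 + 1) → ℤ => F 0) with hV
      have hVcard : (V.card : ℝ) ≤ 2 * M0 + 1 := by
        apply card_int t M0 hM00.le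
        intro x hx
        rw [hV, Finset.mem_image] at hx
        obtain ⟨F, hF, rfl⟩ := hx
        exact hF0 F hF
      have hmaps : ∀ F ∈ S, F 0 ∈ V := fun F hF => Finset.mem_image_of_mem _ hF
      have hcard : (S.card : ℝ) = ∑ x ∈ V, ((S.filter (fun F : Fin (k + 1 + 1) → ℤ =>
          F 0 = x)).card : ℝ) := by
        have h0 := Finset.card_eq_sum_card_fiberwise
          (f := fun F : Fin (k + 1 + 1) → ℤ => F 0) (s := S) (t := V) hmaps
        exact_mod_cast h0
      have hfib : ∀ x ∈ V, ((S.filter (fun F : Fin (k + 1 + 1) → ℤ => F 0 = x)).card : ℝ) ≤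
          (C * B) * (1 + η * H ^ (k + 1)) := by
        intro x _
        have h1 : ((S.filter (fun F : Fin (k + 1 + 1) → ℤ => F 0 = x)).card : ℝ) =
            (((S.filter (fun F : Fin (k + 1 + 1) → ℤ => F 0 = x)).image
              (fun F : Fin (k + 1 + 1) → ℤ => Fin.tail F)).card : ℝ) := by
          rw [Finset.card_image_of_injOn]
          intro F hF F' hF' h
          rw [Finset.mem_coe, Finset.mem_filter] at hF hF'
          simp only at h
          rw [← Fin.cons_self_tail F, ← Fin.cons_self_tail F', hF.2, hF'.2, h]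
        rw [h1]
        have h2 := hih H u hH hu1 hu2 ((t + x) / u) (η / |u|) (by positivity)
          ((S.filter (fun F : Fin (k + 1 + 1) → ℤ => F 0 = x)).image
            (fun F : Fin (k + 1 + 1) → ℤ => Fin.tail F)) (by
          intro G hG
          rw [Finset.mem_image] at hG
          obtain ⟨F, hF, rfl⟩ := hG
          rw [Finset.mem_filter] at hF
          obtain ⟨h2, h3⟩ := hS F hF.1
          refine ⟨fun i => h2 _, ?_⟩
          rw [hsplit, hF.2] at h3
          rw [le_div_iff₀ hu0, ← abs_mul]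
          have h4 : ((t + x) / u + ∑ i : Fin (k + 1), ((Fin.tail F) i : ℝ) * u ^ (i : ℕ)) * u =
              t + ((x : ℝ) + u * ∑ i : Fin (k + 1), ((Fin.tail F) i : ℝ) * u ^ (i : ℕ)) := by
            field_simp
            ring
          rw [h4]
          exact h3)
        refine h2.trans ?_
        rw [mul_assoc]
        apply mul_le_mul_of_nonneg_left _ hC.le
        have h3 : 1 / |u| ≤ B * H := by
          rw [div_le_iff₀ hu0]
          have h4 : 1 / (B * H) * (B * H) ≤ |u| * (B * H) :=
            mul_le_mul_of_nonneg_right hu1 (by positivity)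
          rw [one_div_mul_cancel (by positivity)] at h4
          linarith
        have h4 : η / |u| * H ^ k ≤ B * (η * H ^ (k + 1)) := by
          calc η / |u| * H ^ k = η * H ^ k * (1 / |u|) := by ring
            _ ≤ η * H ^ k * (B * H) := mul_le_mul_of_nonneg_left h3 (by positivity)
            _ = B * (η * H ^ (k + 1)) := by ring
        linarith
      rw [hcard]
      calc ∑ x ∈ V, ((S.filter (fun F : Fin (k + 1 + 1) → ℤ => F 0 = x)).card : ℝ)
          ≤ ∑ _x ∈ V, (C * B) * (1 + η * H ^ (k + 1)) := Finset.sum_le_sum hfib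
        _ = (V.card : ℝ) * ((C * B) * (1 + η * H ^ (k + 1))) := by
            rw [Finset.sum_const, nsmul_eq_mul]
        _ ≤ (2 * M0 + 1) * ((C * B) * (1 + η * H ^ (k + 1))) :=
            mul_le_mul_of_nonneg_right hVcard (by positivity)
        _ ≤ _ := by
            have h1 : 0 ≤ (3 : ℝ) ^ (k + 2) * (1 + η * H ^ (k + 1)) := by positivity
            nlinarith

end Pool.Agent.V8H9.LD
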