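import Pool.Agent.V8H9.LD.Val
import Pool.Agent.V8H9.LD.Tri

/-!
# Large real roots of monic integer polynomials
-/

set_option autoImplicit false

namespace Pool.Agent.V8H9.LD

open Finset Filter Pool.Agent.V8H9.LC
open Pool.Agent.Results.MP_c307ca_nt.AlmostAllToHeight (ev box card_box mem_box)

/-- few vectors have a small last entry -/
theorem card_last (n H : ℕ) (hH : 1 ≤ H) (m : ℝ) (hm : 0 ≤ m) (S : Finset (Fin (n + 1) → ℤ))
    (hS : ∀ a ∈ S, (∀ i, |a i| ≤ (H : ℤ)) ∧ |(a (Fin.last n) : ℝ)| ≤ m) :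
    (S.card : ℝ) ≤ (2 * m + 1) * (3 * H) ^ n := by
  classical
  set V : Finset ℤ := S.image (fun a : Fin (n + 1) → ℤ => a (Fin.last n)) with hV
  have h1 : (V.card : ℝ) ≤ 2 * m + 1 := by
    apply card_int 0 m hm
    intro x hx
    rw [hV, Finset.mem_image] at hx
    obtain ⟨a, ha, rfl⟩ := hx
    rw [zero_add]
    exact (hS a ha).2
  have hle : S.card ≤ (V ×ˢ (box n (H : ℤ))).card := by
    refine Finset.card_le_card_of_injOn (fun a => (a (Fin.last n), Fin.init a)) ?_ ?_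
    · intro a ha
      have ha' := Finset.mem_coe.mp ha
      rw [Finset.mem_coe, Finset.mem_product]
      refine ⟨Finset.mem_image_of_mem _ ha', ?_⟩
      exact mem_box fun i => (hS a ha').1 _
    · intro a _ b _ hab
      have h1 := (Prod.mk.injEq _ _ _ _).mp hab
      rw [← Fin.snoc_init_self a, ← Fin.snoc_init_self b, h1.1, h1.2]
  rw [Finset.card_product, card_box] at hle
  have hH1 : (1 : ℝ) ≤ H := by exact_mod_cast hH
  calc (S.card : ℝ) ≤ ((V.card * (2 * H + 1) ^ n : ℕ) : ℝ) := by exact_mod_cast hle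
    _ = (V.card : ℝ) * (2 * H + 1) ^ n := by push_cast; ring
    _ ≤ (2 * m + 1) * (3 * H) ^ n :=
        mul_le_mul h1 (pow_le_pow_left₀ (by positivity) (by linarith) n) (by positivity)
          (by positivity)

/-- a large root of a monic polynomial is close to the negative of the second coefficient -/
theorem root_rel (n H : ℕ) (a : Fin (n + 1) → ℤ) (ha : ∀ i, |a i| ≤ (H : ℤ)) (ξ : ℝ)
    (h0 : ξ ^ (n + 1) + ev a ξ = 0) (hξ : 1 < |ξ|) :
    |ξ + (a (Fin.last n) : ℝ)| * (|ξ| - 1) ≤ H := by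
  set x := |ξ| with hx
  have hsum : (ξ + (a (Fin.last n) : ℝ)) * ξ ^ n =
      -∑ i : Fin n, (a (Fin.castSucc i) : ℝ) * ξ ^ (i : ℕ) := by
    unfold ev at h0
    rw [Fin.sum_univ_castSucc, pow_succ] at h0
    simp only [Fin.val_castSucc, Fin.val_last] at h0
    linarith
  have h1 : |ξ + (a (Fin.last n) : ℝ)| * x ^ n ≤ H * ∑ i ∈ Finset.range n, x ^ i := by
    have e1 : |ξ + (a (Fin.last n) : ℝ)| * x ^ n = |(ξ + (a (Fin.last n) : ℝ)) * ξ ^ n| := by
      rw [abs_mul, abs_pow]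
    rw [e1, hsum, abs_neg]
    refine (Finset.abs_sum_le_sum_abs _ _).trans ?_
    rw [Finset.mul_sum, ← Fin.sum_univ_eq_sum_range (fun i => (H : ℝ) * x ^ i) n]
    refine Finset.sum_le_sum fun i _ => ?_
    rw [abs_mul, abs_pow]
    have h2 : |(a (Fin.castSucc i) : ℝ)| ≤ H := by exact_mod_cast ha _
    exact mul_le_mul_of_nonneg_right h2 (by positivity)
  have h2 : (∑ i ∈ Finset.range n, x ^ i) * (x - 1) = x ^ n - 1 := geom_sum_mul x n
  have hxd : 0 < x ^ n := by positivity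
  have hH0 : (0 : ℝ) ≤ H := Nat.cast_nonneg H
  have h3 : |ξ + (a (Fin.last n) : ℝ)| * (x - 1) * x ^ n ≤ H * x ^ n := by
    calc |ξ + (a (Fin.last n) : ℝ)| * (x - 1) * x ^ n
        = (|ξ + (a (Fin.last n) : ℝ)| * x ^ n) * (x - 1) := by ring
      _ ≤ (H * ∑ i ∈ Finset.range n, x ^ i) * (x - 1) :=
          mul_le_mul_of_nonneg_right h1 (by linarith)
      _ = H * (x ^ n - 1) := by rw [mul_assoc, h2]
      _ ≤ H * x ^ n := mul_le_mul_of_nonneg_left (by linarith) hH0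
  exact le_of_mul_le_mul_right h3 hxd

/-- the value of the polynomial close to a large root -/
theorem val_big (n H : ℕ) (T : ℝ) (hT : 1 ≤ T) (a : Fin (n + 1) → ℤ) (ha : ∀ i, |a i| ≤ (H : ℤ))
    (θ ξ : ℝ) (hθ1 : 1 ≤ |θ|) (hθξ : |ξ| ≤ 2 * |θ|) (hHT : (H : ℝ) ≤ T * (2 * |θ|))
    (h0 : ξ ^ (n + 1) + ev a ξ = 0) :
    |θ + ∑ i : Fin (n + 1), (a (Fin.rev i) : ℝ) * (1 / θ) ^ (i : ℕ)| ≤
      (2 ^ n * ((n + 1) * (1 + n * T))) * |θ - ξ| := by
  have hθ0 : θ ≠ 0 := by
    intro h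
    rw [h, abs_zero] at hθ1
    linarith
  have hpos : 0 < |θ| := by linarith
  have hsum : ∑ i : Fin (n + 1), (a (Fin.rev i) : ℝ) * (1 / θ) ^ (i : ℕ) = ev a θ / θ ^ n := by
    unfold ev
    rw [Finset.sum_div]
    rw [← Equiv.sum_comp Fin.revPerm]
    apply Finset.sum_congr rfl
    intro i _
    simp only [Fin.revPerm_apply, Fin.rev_rev]
    have h1 : ((Fin.rev i : Fin (n + 1)) : ℕ) = n - (i : ℕ) := by
      rw [Fin.val_rev]
      omega
    have hi : (i : ℕ) ≤ n := Nat.lt_succ_iff.mp i.2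
    rw [h1, mul_div_assoc]
    congr 1
    rw [one_div, inv_pow, eq_div_iff (pow_ne_zero _ hθ0)]
    have h2 : θ ^ n = θ ^ (n - (i : ℕ)) * θ ^ (i : ℕ) := by
      rw [← pow_add]
      congr 1
      omega
    rw [h2, ← mul_assoc, inv_mul_cancel₀ (pow_ne_zero _ hθ0), one_mul]
  have h1 : θ + ∑ i : Fin (n + 1), (a (Fin.rev i) : ℝ) * (1 / θ) ^ (i : ℕ) =
      ((θ ^ (n + 1) - ξ ^ (n + 1)) + (ev a θ - ev a ξ)) / θ ^ n := by
    rw [hsum, eq_div_iff (pow_ne_zero _ hθ0), add_mul, div_mul_cancel₀ _ (pow_ne_zero _ hθ0)]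
    rw [pow_succ]
    linarith
  rw [h1, abs_div, abs_pow, div_le_iff₀ (by positivity)]
  have h2 : |θ ^ (n + 1) - ξ ^ (n + 1)| ≤ (n + 1) * (2 * |θ|) ^ n * |θ - ξ| := by
    refine (abs_pow_sub_pow_le θ ξ (n + 1)).trans ?_
    have h3 : max |θ| |ξ| ^ (n + 1 - 1) ≤ (2 * |θ|) ^ n := by
      rw [Nat.add_sub_cancel]
      exact pow_le_pow_left₀ (le_max_of_le_left (abs_nonneg _)) (max_le (by linarith) hθξ) _
    calc |θ - ξ| * ((n + 1 : ℕ) : ℝ) * max |θ| |ξ| ^ (n + 1 - 1)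
        ≤ |θ - ξ| * ((n + 1 : ℕ) : ℝ) * (2 * |θ|) ^ n :=
          mul_le_mul_of_nonneg_left h3 (by positivity)
      _ = _ := by
          push_cast
          ring
  have h4 : |ev a θ - ev a ξ| ≤ (n + 1) * (n * T * (2 * |θ|) ^ n * |θ - ξ|) := by
    unfold ev
    rw [← Finset.sum_sub_distrib]
    refine (Finset.abs_sum_le_sum_abs _ _).trans ?_
    calc ∑ i : Fin (n + 1), |(a i : ℝ) * θ ^ (i : ℕ) - (a i : ℝ) * ξ ^ (i : ℕ)|
        ≤ ∑ _i : Fin (n + 1), (n * T * (2 * |θ|) ^ n * |θ - ξ|) := by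
          apply Finset.sum_le_sum
          intro i _
          rw [← mul_sub, abs_mul]
          have h5 : |(a i : ℝ)| ≤ H := by exact_mod_cast ha i
          have hi : (i : ℕ) ≤ n := Nat.lt_succ_iff.mp i.2
          rcases Nat.eq_zero_or_pos (i : ℕ) with hi0 | hi0
          · rw [hi0, pow_zero, pow_zero, sub_self, abs_zero, mul_zero]
            positivity
          · have h6 := abs_pow_sub_pow_le θ ξ (i : ℕ)
            have h7 : max |θ| |ξ| ^ ((i : ℕ) - 1) ≤ (2 * |θ|) ^ (n - 1) := by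
              refine (pow_le_pow_left₀ (le_max_of_le_left (abs_nonneg _))
                (max_le (by linarith) hθξ) _).trans ?_
              exact pow_le_pow_right₀ (by linarith) (by omega)
            have h8 : |θ ^ (i : ℕ) - ξ ^ (i : ℕ)| ≤ |θ - ξ| * n * (2 * |θ|) ^ (n - 1) := by
              refine h6.trans ?_
              apply mul_le_mul _ h7 (by positivity) (by positivity)
              exact mul_le_mul_of_nonneg_left (by exact_mod_cast hi) (abs_nonneg _)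
            calc |(a i : ℝ)| * |θ ^ (i : ℕ) - ξ ^ (i : ℕ)|
                ≤ (T * (2 * |θ|)) * (|θ - ξ| * n * (2 * |θ|) ^ (n - 1)) :=
                  mul_le_mul (h5.trans hHT) h8 (abs_nonneg _) (by positivity)
              _ = n * T * ((2 * |θ|) * (2 * |θ|) ^ (n - 1)) * |θ - ξ| := by ring
              _ = n * T * (2 * |θ|) ^ n * |θ - ξ| := by
                  rw [← pow_succ', Nat.sub_add_cancel (by omega : 1 ≤ n)]
      _ = _ := by
          rw [Finset.sum_const, card_univ, Fintype.card_fin, nsmul_eq_mul]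
          push_cast
          ring
  calc |θ ^ (n + 1) - ξ ^ (n + 1) + (ev a θ - ev a ξ)|
      ≤ (n + 1) * (2 * |θ|) ^ n * |θ - ξ| + (n + 1) * (n * T * (2 * |θ|) ^ n * |θ - ξ|) :=
        (abs_add_le _ _).trans (add_le_add h2 h4)
    _ = _ := by
        rw [mul_pow]
        ring

end Pool.Agent.V8H9.LD
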