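import Pool.Agent.V8H9.LD.Big

/-!
# Large real roots of monic integer polynomials: assembly
-/

set_option autoImplicit false

namespace Pool.Agent.V8H9.LD

open Finset Filter Pool.Agent.V8H9.LC
open Pool.Agent.TH42.LA (log_pow_le)
open Pool.Agent.Results.MP_c307ca_nt.AlmostAllToHeight (ev)

/-- the large rationals with denominator in a dyadic range -/
noncomputable def XB (T H Q : ℕ) : Finset ℝ :=
  ((Ico Q (2 * Q) ×ˢ Icc (-((3 * H * (2 * Q) : ℕ) : ℤ)) ((3 * H * (2 * Q) : ℕ) : ℤ)).image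
    (fun z : ℕ × ℤ => (z.2 : ℝ) / (z.1 : ℝ))).filter
      (fun x => (H : ℝ) / (2 * T) ≤ |x| ∧ |x| ≤ 3 * H)

theorem XB_card (T H Q : ℕ) (hQ : 1 ≤ Q) (hH : 1 ≤ H) :
    ((XB T H Q).card : ℝ) ≤ 13 * H * (Q : ℝ) ^ 2 := by
  have hQ1 : (1 : ℝ) ≤ Q := by exact_mod_cast hQ
  have hH1 : (1 : ℝ) ≤ H := by exact_mod_cast hH
  have h1 : (XB T H Q).card ≤ Q * (2 * (3 * H * (2 * Q)) + 1) := by
    unfold XB
    refine (Finset.card_filter_le _ _).trans (Finset.card_image_le.trans ?_)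
    rw [Finset.card_product, Nat.card_Ico, Int.card_Icc]
    refine Nat.mul_le_mul (by omega) (by omega)
  have h2 : ((XB T H Q).card : ℝ) ≤ ((Q * (2 * (3 * H * (2 * Q)) + 1) : ℕ) : ℝ) := by
    exact_mod_cast h1
  refine h2.trans ?_
  push_cast
  have h3 : (Q : ℝ) ≤ H * (Q : ℝ) ^ 2 := by
    have : (1 : ℝ) ≤ H * Q := one_le_mul_of_one_le_of_one_le hH1 hQ1
    nlinarith
  nlinarith

theorem mem_XB (T H Q : ℕ) (p : ℤ) (q : ℕ) (hQ : 1 ≤ Q) (h1 : Q ≤ q) (h2 : q < 2 * Q)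
    (h3 : |(p : ℝ) / q| ≤ 3 * H) (h4 : (H : ℝ) / (2 * T) ≤ |(p : ℝ) / q|) :
    (p : ℝ) / q ∈ XB T H Q := by
  unfold XB
  rw [Finset.mem_filter, Finset.mem_image]
  refine ⟨⟨(q, p), ?_, rfl⟩, h4, h3⟩
  rw [mem_product, mem_Ico, mem_Icc]
  refine ⟨⟨h1, h2⟩, ?_⟩
  have hq : (0 : ℝ) < q := by
    have : 0 < q := by omega
    exact_mod_cast this
  rw [abs_div, Nat.abs_cast, div_le_iff₀ hq] at h3
  have h4 : |(p : ℝ)| ≤ ((3 * H * (2 * Q) : ℕ) : ℝ) := by
    have h5 : (q : ℝ) ≤ 2 * Q := by exact_mod_cast h2.le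
    have h6 : (0 : ℝ) ≤ 3 * H := by positivity
    refine h3.trans ?_
    push_cast
    exact mul_le_mul_of_nonneg_left h5 h6
  have h5 : |p| ≤ ((3 * H * (2 * Q) : ℕ) : ℤ) := by exact_mod_cast h4
  exact abs_le.mp h5

theorem approx_big (n T : ℕ) (hn : 1 ≤ n) (hT : 2 ≤ T) (κ : ℝ) (hκ : κ < (n : ℝ) / 2)
    (ψ : ℕ → ℝ) (hψ0 : ∀ q, 0 ≤ ψ q) (hψa : Antitone ψ) (hψs : Summable ψ) (η : ℝ) (hη : 0 < η) :
    ∃ c : ℝ, 0 < c ∧ ∀ᶠ H : ℕ in atTop, ∀ BB : Finset (Fin (n + 1) → ℤ),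
      (∀ a ∈ BB, (∀ i, |a i| ≤ (H : ℤ)) ∧
        ∃ ξ : ℝ, (T : ℝ) < |ξ| ∧ ξ ^ (n + 1) + ev a ξ = 0 ∧
          ∃ (p : ℤ) (q : ℕ), 1 ≤ q ∧ (q : ℝ) ≤ (H : ℝ) ^ κ ∧
          |ξ - (p : ℝ) / q| ≤ c * (ψ q / q)) →
      (BB.card : ℝ) ≤ (H : ℝ) ^ (n + 1) * (7 * 3 ^ n / T + η) := by
  classical
  have hn1 : (1 : ℝ) ≤ n := by exact_mod_cast hn
  have hT2 : (2 : ℝ) ≤ T := by exact_mod_cast hT
  -- the exponents
  set κ1 : ℝ := max κ (1 / 4) with hκ1
  have hκ10 : 0 < κ1 := lt_max_of_lt_right (by norm_num)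
  have hκ12 : κ1 < (n : ℝ) / 2 := max_lt hκ (by linarith)
  set σ : ℝ := (n : ℝ) - 2 * κ1 with hσ
  have hσ0 : 0 < σ := by linarith
  -- the majorant
  set φ : ℕ → ℝ := fun j => (2 : ℝ) ^ j * ψ (2 ^ j) + (1 / 2) ^ j with hφ
  have hφs : Summable φ := by
    apply Summable.add
    · exact (summable_condensed_iff_of_nonneg hψ0 (fun _ _ _ h => hψa h)).mpr hψs
    · exact summable_geometric_of_lt_one (by norm_num) (by norm_num)
  have hφpos : ∀ j, 0 < φ j := fun j => by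
    have h1 := hψ0 (2 ^ j)
    simp only [hφ]
    positivity
  set S : ℝ := ∑' j, φ j with hS
  have hφS : ∀ j, φ j ≤ S := fun j => hφs.le_tsum j fun i _ => (hφpos i).le
  have hS0 : 0 < S := (hφpos 0).trans_le (hφS 0)
  -- the constants
  obtain ⟨C, hC, htri⟩ := tri_count (2 * T + 3) (by linarith) n
  set KB : ℝ := 2 ^ n * ((n + 1) * (1 + n * T)) with hKB
  have hKB0 : 0 < KB := by positivity
  set c : ℝ := min (1 / S) (η / (2 * (13 * C * KB * S))) with hc
  have hc0 : 0 < c := lt_min (by positivity) (by positivity)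
  have hcS : c * S ≤ 1 := by
    have h1 : c ≤ 1 / S := min_le_left _ _
    rwa [le_div_iff₀ hS0] at h1
  have hcη : 13 * C * KB * S * c ≤ η / 2 := by
    have h1 : c ≤ η / (2 * (13 * C * KB * S)) := min_le_right _ _
    rw [le_div_iff₀ (by positivity)] at h1
    linarith
  refine ⟨c, hc0, ?_⟩
  have hlog2 : 0 < Real.log 2 := Real.log_pos (by norm_num)
  set C' : ℝ := 2 / η * (13 * C * (1 + κ1 / Real.log 2)) with hC'
  have hC'0 : 0 < C' := by positivity
  filter_upwards [log_pow_le 1 σ C' hσ0 hC'0, eventually_ge_atTop (2 * T + 3)]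
    with H hHlog hHT
  intro BB hB
  have hH1 : 1 ≤ H := by omega
  have hH0 : (0 : ℝ) < H := by exact_mod_cast hH1
  have hH1R : (1 : ℝ) ≤ H := by exact_mod_cast hH1
  have hHTR : 2 * (T : ℝ) + 3 ≤ H := by exact_mod_cast hHT
  have hlogH : 1 ≤ Real.log H := by
    rw [Real.le_log_iff_exp_le hH0]
    have := Real.exp_one_lt_d9
    linarith
  rw [Real.rpow_one] at hHlog
  set P : ℝ := (H : ℝ) ^ κ1 with hP
  have hP1 : 1 ≤ P := Real.one_le_rpow hH1R hκ10.le
  have hκP : (H : ℝ) ^ κ ≤ P := Real.rpow_le_rpow_of_exponent_le hH1R (le_max_left _ _)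
  have hHp : 0 < (H : ℝ) ^ (n + 1) := by positivity
  set e : ℕ → ℝ := fun j => KB * (c * (φ j / (2 ^ j) ^ 2)) with he
  have he0 : ∀ j, 0 < e j := fun j => by
    have := hφpos j
    simp only [he]
    positivity
  set Sj : ℕ → Finset (Fin (n + 1) → ℤ) := fun j => BB.filter
    (fun a : Fin (n + 1) → ℤ => ∃ θ ∈ XB T H (2 ^ j),
      |θ + ∑ i, (a (Fin.rev i) : ℝ) * (1 / θ) ^ (i : ℕ)| ≤ e j) with hSj
  have hmemS : ∀ (j : ℕ) (a : Fin (n + 1) → ℤ), a ∈ Sj j ↔ a ∈ BB ∧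
      ∃ θ ∈ XB T H (2 ^ j), |θ + ∑ i, (a (Fin.rev i) : ℝ) * (1 / θ) ^ (i : ℕ)| ≤ e j := by
    intro j a
    simp only [hSj, Finset.mem_filter]
  have hSjcard : ∀ j : ℕ, ((2 : ℝ) ^ j) ≤ P → ((Sj j).card : ℝ) ≤
      13 * C * KB * c * (H : ℝ) ^ (n + 1) * φ j + 13 * C * H * P ^ 2 := by
    intro j hj
    have h2j : (0 : ℝ) < 2 ^ j := by positivity
    have hsub : Sj j ⊆ (XB T H (2 ^ j)).biUnion (fun θ => (Sj j).filter
        (fun a : Fin (n + 1) → ℤ =>
          |θ + ∑ i, (a (Fin.rev i) : ℝ) * (1 / θ) ^ (i : ℕ)| ≤ e j)) := by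
      intro a ha
      obtain ⟨h1, θ, hθ, h2⟩ := (hmemS j a).mp ha
      rw [Finset.mem_biUnion]
      exact ⟨θ, hθ, Finset.mem_filter.mpr ⟨ha, h2⟩⟩
    have hcard : ((Sj j).card : ℝ) ≤ ∑ θ ∈ XB T H (2 ^ j), (((Sj j).filter
        (fun a : Fin (n + 1) → ℤ =>
          |θ + ∑ i, (a (Fin.rev i) : ℝ) * (1 / θ) ^ (i : ℕ)| ≤ e j)).card : ℝ) := by
      have h1 := (Finset.card_le_card hsub).trans Finset.card_biUnion_le
      exact_mod_cast h1
    have hone : ∀ θ ∈ XB T H (2 ^ j), (((Sj j).filter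
        (fun a : Fin (n + 1) → ℤ =>
          |θ + ∑ i, (a (Fin.rev i) : ℝ) * (1 / θ) ^ (i : ℕ)| ≤ e j)).card : ℝ) ≤
        C * (1 + e j * (H : ℝ) ^ n) := by
      intro θ hθ
      unfold XB at hθ
      rw [Finset.mem_filter] at hθ
      obtain ⟨_, hθ1, hθ2⟩ := hθ
      have hθpos : 0 < |θ| := lt_of_lt_of_le (by positivity) hθ1
      set Z := (Sj j).filter (fun a : Fin (n + 1) → ℤ =>
          |θ + ∑ i, (a (Fin.rev i) : ℝ) * (1 / θ) ^ (i : ℕ)| ≤ e j) with hZ
      have h1 : (Z.card : ℝ) = ((Z.image (fun a : Fin (n + 1) → ℤ => fun i => a (Fin.rev i))).card : ℝ) := by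
        rw [Finset.card_image_of_injective]
        intro a b h
        funext i
        have h2 := congrFun h (Fin.rev i)
        simpa using h2
      rw [h1]
      apply htri H (1 / θ) hH1R _ _ θ (e j) (he0 j)
      · intro F hF
        rw [Finset.mem_image] at hF
        obtain ⟨a, ha, rfl⟩ := hF
        rw [hZ, Finset.mem_filter] at ha
        refine ⟨fun i => ?_, ha.2⟩
        have h2 := (hB a ((hmemS j a).mp ha.1).1).1 (Fin.rev i)
        exact_mod_cast h2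
      · rw [abs_div, abs_one]
        apply one_div_le_one_div_of_le hθpos
        refine hθ2.trans ?_
        apply mul_le_mul_of_nonneg_right _ hH0.le
        linarith
      · rw [abs_div, abs_one, div_le_div_iff₀ hθpos hH0, one_mul]
        rw [div_le_iff₀ (by positivity)] at hθ1
        calc (H : ℝ) ≤ |θ| * (2 * T) := hθ1
          _ ≤ (2 * T + 3) * |θ| := by nlinarith
    have h2 := XB_card T H (2 ^ j) Nat.one_le_two_pow hH1
    push_cast at h2
    calc ((Sj j).card : ℝ) ≤ ∑ _θ ∈ XB T H (2 ^ j), C * (1 + e j * (H : ℝ) ^ n) :=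
          hcard.trans (Finset.sum_le_sum hone)
      _ = ((XB T H (2 ^ j)).card : ℝ) * (C * (1 + e j * (H : ℝ) ^ n)) := by
          rw [Finset.sum_const, nsmul_eq_mul]
      _ ≤ (13 * H * ((2 : ℝ) ^ j) ^ 2) * (C * (1 + e j * (H : ℝ) ^ n)) := by
          have := he0 j
          exact mul_le_mul_of_nonneg_right h2 (by positivity)
      _ = 13 * C * KB * c * (H : ℝ) ^ (n + 1) * φ j + 13 * C * H * ((2 : ℝ) ^ j) ^ 2 := by
          simp only [he]
          rw [pow_succ (H : ℝ) n]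
          field_simp
          ring
      _ ≤ _ := by
          have h3 : ((2 : ℝ) ^ j) ^ 2 ≤ P ^ 2 := pow_le_pow_left₀ h2j.le hj 2
          have h4 : 13 * C * H * ((2 : ℝ) ^ j) ^ 2 ≤ 13 * C * H * P ^ 2 :=
            mul_le_mul_of_nonneg_left h3 (by positivity)
          linarith
  set J : ℕ := Nat.log 2 ⌊P⌋₊ + 1 with hJ
  have hfl : ⌊P⌋₊ ≠ 0 := by
    have h1 : 1 ≤ ⌊P⌋₊ := Nat.le_floor (by exact_mod_cast hP1)
    omega
  have hjP : ∀ j ∈ range J, ((2 : ℝ) ^ j) ≤ P := by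
    intro j hj
    rw [mem_range, hJ, Nat.lt_succ_iff] at hj
    have h1 : 2 ^ j ≤ ⌊P⌋₊ := (Nat.pow_le_pow_right (by norm_num) hj).trans
      (Nat.pow_log_le_self 2 hfl)
    have h2 : ((2 : ℝ) ^ j) ≤ (⌊P⌋₊ : ℝ) := by exact_mod_cast h1
    exact h2.trans (Nat.floor_le (by linarith))
  have hJb : (J : ℝ) ≤ (1 + κ1 / Real.log 2) * Real.log H := by
    have h1 : ((2 : ℝ) ^ (Nat.log 2 ⌊P⌋₊)) ≤ P := by
      have h2 : 2 ^ (Nat.log 2 ⌊P⌋₊) ≤ ⌊P⌋₊ := Nat.pow_log_le_self 2 hfl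
      have h3 : ((2 : ℝ) ^ (Nat.log 2 ⌊P⌋₊)) ≤ (⌊P⌋₊ : ℝ) := by exact_mod_cast h2
      exact h3.trans (Nat.floor_le (by linarith))
    have h2 : (Nat.log 2 ⌊P⌋₊ : ℝ) * Real.log 2 ≤ κ1 * Real.log H := by
      rw [← Real.log_pow, ← Real.log_rpow hH0]
      exact Real.log_le_log (by positivity) h1
    have h3 : (Nat.log 2 ⌊P⌋₊ : ℝ) ≤ κ1 / Real.log 2 * Real.log H := by
      rw [div_mul_eq_mul_div, le_div_iff₀ hlog2]
      exact h2
    rw [hJ]
    push_cast
    linarith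
  set SA : Finset (Fin (n + 1) → ℤ) := BB.filter
    (fun a : Fin (n + 1) → ℤ => |(a (Fin.last n) : ℝ)| ≤ 3 * H / T) with hSA
  have hSAcard : (SA.card : ℝ) ≤ (H : ℝ) ^ (n + 1) * (7 * 3 ^ n / T) := by
    have h1 := card_last n H hH1 (3 * H / T) (by positivity) SA (by
      intro a ha
      rw [hSA, Finset.mem_filter] at ha
      exact ⟨(hB a ha.1).1, ha.2⟩)
    refine h1.trans ?_
    have h2 : 2 * (3 * (H : ℝ) / T) + 1 ≤ 7 * H / T := by
      have h3 : (1 : ℝ) ≤ H / T := by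
        rw [le_div_iff₀ (by linarith)]
        linarith
      have h4 : 2 * (3 * (H : ℝ) / T) + 1 ≤ 2 * (3 * (H : ℝ) / T) + H / T := by linarith
      refine h4.trans (le_of_eq ?_)
      ring
    calc (2 * (3 * (H : ℝ) / T) + 1) * (3 * H) ^ n ≤ (7 * H / T) * (3 * H) ^ n :=
          mul_le_mul_of_nonneg_right h2 (by positivity)
      _ = _ := by
          rw [mul_pow, pow_succ (H : ℝ) n]
          ring
  have hsub : BB ⊆ SA ∪ (range J).biUnion Sj := by
    intro a ha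
    obtain ⟨ha1, ξ, hξ, hξ0, p, q, hq1, hqκ, hle⟩ := hB a ha
    rw [Finset.mem_union]
    have hrel := root_rel n H a ha1 ξ hξ0 (by linarith)
    have hT1 : (0 : ℝ) < (T : ℝ) - 1 := by linarith
    have hrel2 : |ξ + (a (Fin.last n) : ℝ)| ≤ 2 * H / T := by
      have h1 : |ξ + (a (Fin.last n) : ℝ)| * ((T : ℝ) - 1) ≤ H := by
        refine le_trans ?_ hrel
        exact mul_le_mul_of_nonneg_left (by linarith) (abs_nonneg _)
      rw [le_div_iff₀ (by linarith)]
      have h2 : 0 ≤ |ξ + (a (Fin.last n) : ℝ)| := abs_nonneg _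
      nlinarith
    by_cases hsm : |ξ| ≤ H / T
    · left
      rw [hSA, Finset.mem_filter]
      refine ⟨ha, ?_⟩
      have h1 : (a (Fin.last n) : ℝ) = (ξ + (a (Fin.last n) : ℝ)) - ξ := by ring
      rw [h1]
      refine (abs_sub _ _).trans ?_
      have h2 : 3 * (H : ℝ) / T = 2 * H / T + H / T := by ring
      rw [h2]
      exact add_le_add hrel2 hsm
    · right
      push Not at hsm
      have hξ2 : |ξ| ≤ 2 * H := by
        have h1 : ξ = (ξ + (a (Fin.last n) : ℝ)) - (a (Fin.last n) : ℝ) := by ring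
        rw [h1]
        refine (abs_sub _ _).trans ?_
        have h2 : |(a (Fin.last n) : ℝ)| ≤ H := by exact_mod_cast ha1 _
        have h3 : 2 * (H : ℝ) / T ≤ H := by
          rw [div_le_iff₀ (by linarith)]
          nlinarith
        linarith
      set j : ℕ := Nat.log 2 q with hj
      have hj1 : 2 ^ j ≤ q := Nat.pow_log_le_self 2 (by omega)
      have hj2 : q < 2 * 2 ^ j := by
        have h1 : q < 2 ^ (j + 1) := Nat.lt_pow_succ_log_self (by norm_num) _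
        calc q < 2 ^ (j + 1) := h1
          _ = 2 * 2 ^ j := by ring
      have hqP : (q : ℝ) ≤ P := hqκ.trans hκP
      have hjJ : j ∈ range J := by
        rw [mem_range, hJ, hj]
        exact Nat.lt_succ_of_le (Nat.log_mono_right (Nat.le_floor hqP))
      rw [mem_biUnion]
      refine ⟨j, hjJ, ?_⟩
      have hq0 : (0 : ℝ) < q := by
        have : 0 < q := by omega
        exact_mod_cast this
      have h2j : (0 : ℝ) < 2 ^ j := by positivity
      have h2jq : ((2 : ℝ) ^ j) ≤ q := by exact_mod_cast hj1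
      have hψφ : ψ q / q ≤ φ j / (2 ^ j) ^ 2 := by
        have h1 : ψ q ≤ ψ (2 ^ j) := hψa hj1
        have h2 : ψ (2 ^ j) / 2 ^ j = (2 ^ j * ψ (2 ^ j)) / (2 ^ j) ^ 2 := by
          field_simp
        calc ψ q / q ≤ ψ (2 ^ j) / 2 ^ j := div_le_div₀ (hψ0 _) h1 h2j h2jq
          _ = (2 ^ j * ψ (2 ^ j)) / (2 ^ j) ^ 2 := h2
          _ ≤ φ j / (2 ^ j) ^ 2 := by
              apply div_le_div_of_nonneg_right _ (by positivity)
              simp only [hφ]
              have : (0 : ℝ) < (1 / 2) ^ j := by positivity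
              linarith
      have h1 : |ξ - (p : ℝ) / q| ≤ c * (φ j / (2 ^ j) ^ 2) :=
        hle.trans (mul_le_mul_of_nonneg_left hψφ hc0.le)
      have h2 : c * (φ j / (2 ^ j) ^ 2) ≤ 1 := by
        have h3 : φ j / (2 ^ j) ^ 2 ≤ S := by
          refine (div_le_self (hφpos j).le ?_).trans (hφS j)
          exact one_le_pow₀ (one_le_pow₀ (by norm_num))
        exact (mul_le_mul_of_nonneg_left h3 hc0.le).trans hcS
      set θ : ℝ := (p : ℝ) / q with hθ
      have h3 : |θ| ≤ |ξ| + 1 := by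
        have h6 : θ = ξ - (ξ - θ) := by ring
        rw [h6]
        refine (abs_sub _ _).trans ?_
        linarith
      have h4 : |ξ| ≤ |θ| + 1 := by
        have h6 : ξ = θ + (ξ - θ) := by ring
        rw [h6]
        refine (abs_add_le _ _).trans ?_
        linarith
      have h5 : (1 : ℝ) ≤ H / (2 * T) := by
        rw [le_div_iff₀ (by linarith)]
        linarith
      have h6 : (H : ℝ) / (2 * T) ≤ |θ| := by
        have h7 : (H : ℝ) / T = 2 * (H / (2 * T)) := by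
          field_simp
        linarith
      have hθ1 : 1 ≤ |θ| := h5.trans h6
      rw [hmemS]
      refine ⟨ha, θ, ?_, ?_⟩
      · exact mem_XB T H (2 ^ j) p q Nat.one_le_two_pow hj1 hj2 (by linarith) h6
      · have h7 := val_big n H T (by linarith) a ha1 θ ξ hθ1 (by linarith) (by
          rw [div_le_iff₀ (by linarith)] at h6
          linarith) hξ0
        refine h7.trans ?_
        simp only [he]
        apply mul_le_mul_of_nonneg_left _ hKB0.le
        rw [abs_sub_comm]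
        exact h1
  have hcard : (BB.card : ℝ) ≤ (SA.card : ℝ) + ∑ j ∈ range J, ((Sj j).card : ℝ) := by
    have h1 := (Finset.card_le_card hsub).trans (Finset.card_union_le _ _)
    have h2 : ((range J).biUnion Sj).card ≤ ∑ j ∈ range J, (Sj j).card := Finset.card_biUnion_le
    exact_mod_cast h1.trans (Nat.add_le_add_left h2 _)
  have hsum : ∑ j ∈ range J, ((Sj j).card : ℝ) ≤ (H : ℝ) ^ (n + 1) * η := by
    have h1 : ∑ j ∈ range J, ((Sj j).card : ℝ) ≤
        13 * C * KB * c * (H : ℝ) ^ (n + 1) * ∑ j ∈ range J, φ j +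
          J * (13 * C * H * P ^ 2) := by
      refine (Finset.sum_le_sum fun j hj => hSjcard j (hjP j hj)).trans (le_of_eq ?_)
      rw [Finset.sum_add_distrib, ← Finset.mul_sum, Finset.sum_const, card_range, nsmul_eq_mul]
    have h2 : ∑ j ∈ range J, φ j ≤ S := hφs.sum_le_tsum _ fun i _ => (hφpos i).le
    have h3 : 13 * C * KB * c * (H : ℝ) ^ (n + 1) * ∑ j ∈ range J, φ j ≤
        (H : ℝ) ^ (n + 1) * (η / 2) := by
      calc 13 * C * KB * c * (H : ℝ) ^ (n + 1) * ∑ j ∈ range J, φ j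
          ≤ 13 * C * KB * c * (H : ℝ) ^ (n + 1) * S :=
            mul_le_mul_of_nonneg_left h2 (by positivity)
        _ = (H : ℝ) ^ (n + 1) * (13 * C * KB * S * c) := by ring
        _ ≤ _ := mul_le_mul_of_nonneg_left hcη hHp.le
    have h4 : (J : ℝ) * (13 * C * H * P ^ 2) ≤ (H : ℝ) ^ (n + 1) * (η / 2) := by
      have h5 : P ^ 2 * (H : ℝ) ^ σ = (H : ℝ) ^ n := by
        rw [hP, ← Real.rpow_natCast, ← Real.rpow_mul hH0.le, ← Real.rpow_add hH0,
          ← Real.rpow_natCast (H : ℝ) n]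
        congr 1
        rw [hσ]
        push_cast
        ring
      have h6 : (J : ℝ) * (13 * C) ≤ η / 2 * (H : ℝ) ^ σ := by
        calc (J : ℝ) * (13 * C) ≤ ((1 + κ1 / Real.log 2) * Real.log H) * (13 * C) :=
              mul_le_mul_of_nonneg_right hJb (by positivity)
          _ = (η / 2) * (C' * Real.log H) := by
              rw [hC']
              field_simp
          _ ≤ (η / 2) * (H : ℝ) ^ σ := mul_le_mul_of_nonneg_left hHlog (by positivity)
      calc (J : ℝ) * (13 * C * H * P ^ 2) = ((J : ℝ) * (13 * C)) * (H * P ^ 2) := by ring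
        _ ≤ (η / 2 * (H : ℝ) ^ σ) * (H * P ^ 2) :=
            mul_le_mul_of_nonneg_right h6 (by positivity)
        _ = (η / 2) * H * (P ^ 2 * (H : ℝ) ^ σ) := by ring
        _ = (H : ℝ) ^ (n + 1) * (η / 2) := by
            rw [h5, pow_succ]
            ring
    linarith
  calc (BB.card : ℝ) ≤ (SA.card : ℝ) + ∑ j ∈ range J, ((Sj j).card : ℝ) := hcard
    _ ≤ (H : ℝ) ^ (n + 1) * (7 * 3 ^ n / T) + (H : ℝ) ^ (n + 1) * η :=
        add_le_add hSAcard hsum
    _ = _ := by ring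

end Pool.Agent.V8H9.LD
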