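import Pool.Agent.V8H9.LC.Core2

/-!
# Small values of the members of affine families of polynomials
-/

set_option autoImplicit false

namespace Pool.Agent.V8H9.LD

open Finset Pool.Agent.V8H9.LC

/-- differences from a fixed element -/
theorem card_diff {ι : Type*} [DecidableEq (ι → ℤ)] (S : Finset (ι → ℤ)) (F0 : ι → ℤ) :
    (S.image (fun F => F - F0)).card = S.card :=
  Finset.card_image_of_injective _ (fun _ _ h => sub_left_injective h)

/-- **Members of an affine family with a small value at one of finitely many points.** -/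
theorem core_aff (n : ℕ) (hn : 1 ≤ n) (R : ℝ) (hR : (n : ℝ) ≤ R) (A : ℝ) (hA : 0 ≤ A) :
    ∃ C : ℝ, 0 < C ∧ ∀ H η : ℝ, 1 ≤ H → 0 < η → ∀ (g : ℝ → ℝ) (X : Finset ℝ),
      (∀ θ ∈ X, |θ| ≤ R) → (∀ θ ∈ X, ∀ θ' ∈ X, |g θ - g θ'| ≤ A * H * |θ - θ'|) →
      ∀ S : Finset (Fin (n + 1) → ℤ), (∀ F ∈ S, (∀ i, |(F i : ℝ)| ≤ H) ∧
        ∃ θ ∈ X, |g θ + ∑ i, (F i : ℝ) * θ ^ (i : ℕ)| ≤ η) →
      (S.card : ℝ) ≤ C * (X.card * (H ^ n * η) + H ^ (n + 1) * (1 / (η * H ^ n)) ^ al n) := by
  classical
  have hn1 : (1 : ℝ) ≤ n := by exact_mod_cast hn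
  have hR1 : 1 ≤ R := by linarith
  have hal := al_pos hn
  set c : ℝ := 1 / ((n : ℝ) + 3) with hcdef
  have hc : 0 < c := by positivity
  have hc1 : c < 1 := by
    rw [hcdef, div_lt_one (by positivity)]
    linarith
  have hcn : ((n : ℝ) + 2) * c < 1 := by
    rw [hcdef, mul_one_div, div_lt_one (by positivity)]
    linarith
  obtain ⟨C1, hC1, hgood⟩ := good_count n R hR1 c hc
  obtain ⟨C2, hC2, horth⟩ := orth_count n R hR1 c hc hc1
  obtain ⟨C3, hC3, hsum⟩ := sum_minl n hn R hR c hc hc1
  set K1 : ℝ := C1 * 2 ^ (n + 1) with hK1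
  set K2 : ℝ := (2 * A + 3) * (C2 * (C3 * 2 ^ (n + 1))) with hK2
  have hK10 : 0 < K1 := by positivity
  have hK20 : 0 < K2 := by positivity
  refine ⟨3 ^ (n + 1) + K1 + K2, by positivity, ?_⟩
  intro H η hH hη g X hX hg S hS
  have hH0 : 0 < H := by linarith
  have hHn : 0 < H ^ n := by positivity
  have hHn1 : 0 < H ^ (n + 1) := by positivity
  have hr0 : 0 ≤ (1 / (η * H ^ n)) ^ al n := by positivity
  have hX0 : (0 : ℝ) ≤ X.card * (H ^ n * η) := by positivity
  have hbox := box_count H hH S (fun F hF => (hS F hF).1)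
  have h3p : (0 : ℝ) ≤ 3 ^ (n + 1) := by positivity
  by_cases hsmall : η * H ^ n ≤ 1
  · have h1 : (1 : ℝ) ≤ (1 / (η * H ^ n)) ^ al n := by
      apply Real.one_le_rpow _ hal.le
      rw [le_div_iff₀ (by positivity)]
      linarith
    calc (S.card : ℝ) ≤ 3 ^ (n + 1) * H ^ (n + 1) := hbox
      _ = 3 ^ (n + 1) * (0 + H ^ (n + 1) * 1) := by ring
      _ ≤ 3 ^ (n + 1) * (X.card * (H ^ n * η) + H ^ (n + 1) * (1 / (η * H ^ n)) ^ al n) := by
          gcongr
      _ ≤ _ := by
          apply mul_le_mul_of_nonneg_right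
          · linarith
          · positivity
  push Not at hsmall
  by_cases hlarge : H < η
  · rcases S.eq_empty_or_nonempty with h0 | ⟨F, hF⟩
    · rw [h0, Finset.card_empty, Nat.cast_zero]
      positivity
    · obtain ⟨_, θ, hθ, _⟩ := hS F hF
      have h1 : (1 : ℝ) ≤ X.card := by
        have : 1 ≤ X.card := Finset.card_pos.mpr ⟨θ, hθ⟩
        exact_mod_cast this
      have h2 : H ^ (n + 1) ≤ X.card * (H ^ n * η) := by
        calc H ^ (n + 1) = 1 * (H ^ n * H) := by ring
          _ ≤ X.card * (H ^ n * η) := by gcongr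
      calc (S.card : ℝ) ≤ 3 ^ (n + 1) * H ^ (n + 1) := hbox
        _ ≤ 3 ^ (n + 1) * (X.card * (H ^ n * η) + H ^ (n + 1) * (1 / (η * H ^ n)) ^ al n) := by
            apply mul_le_mul_of_nonneg_left _ h3p
            have : 0 ≤ H ^ (n + 1) * (1 / (η * H ^ n)) ^ al n := by positivity
            linarith
        _ ≤ _ := by
            apply mul_le_mul_of_nonneg_right
            · linarith
            · positivity
  push Not at hlarge
  -- the main case
  set H2 : ℝ := 2 * H with hH2
  have hH21 : 1 ≤ H2 := by linarith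
  have hH20 : 0 < H2 := by linarith
  set B : ℝ → Prop := fun θ => Bad n H2 c (c / η) θ with hB
  have hchoice : ∀ θ : ℝ, ∃ w : Fin (n + 1) → ℤ, B θ → Minl H2 c θ w ∧ (w 0 : ℝ) ≤ c / η := by
    intro θ
    by_cases hθ : B θ
    · obtain ⟨w, h1, h2⟩ := exists_minl hH21 hc1 hθ
      exact ⟨w, fun _ => ⟨h1, h2⟩⟩
    · exact ⟨0, fun h => absurd h hθ⟩
  choose ww hww using hchoice
  set W : Finset (Fin (n + 1) → ℤ) := (X.filter B).image ww with hW
  have hback : ∀ w : Fin (n + 1) → ℤ, ∃ θ : ℝ, w ∈ W → θ ∈ X ∧ B θ ∧ ww θ = w := by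
    intro w
    by_cases hw : w ∈ W
    · rw [hW, Finset.mem_image] at hw
      obtain ⟨θ, h1, h2⟩ := hw
      rw [Finset.mem_filter] at h1
      exact ⟨θ, fun _ => ⟨h1.1, h1.2, h2⟩⟩
    · exact ⟨0, fun h => absurd h hw⟩
  choose th hth using hback
  -- the possible values of the product with `w`
  set y : (Fin (n + 1) → ℤ) → ℝ := fun w => -((w 0 : ℝ) * g (th w)) with hy
  set Kw : (Fin (n + 1) → ℤ) → Finset ℤ := fun w => Icc ⌈y w - (1 + A)⌉ ⌊y w + (1 + A)⌋ with hKw
  have hKcard : ∀ w, ((Kw w).card : ℝ) ≤ 2 * A + 3 := by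
    intro w
    simp only [hKw]
    rw [Int.card_Icc]
    have h1 := Int.le_ceil (y w - (1 + A))
    have h2 := Int.floor_le (y w + (1 + A))
    have h3 : (((⌊y w + (1 + A)⌋ + 1 - ⌈y w - (1 + A)⌉).toNat : ℕ) : ℝ) ≤
        max (((⌊y w + (1 + A)⌋ + 1 - ⌈y w - (1 + A)⌉ : ℤ) : ℝ)) 0 := by
      have h4 : (((⌊y w + (1 + A)⌋ + 1 - ⌈y w - (1 + A)⌉).toNat : ℕ) : ℤ) =
          max (⌊y w + (1 + A)⌋ + 1 - ⌈y w - (1 + A)⌉) 0 := Int.toNat_eq_max _
      have h5 : (((⌊y w + (1 + A)⌋ + 1 - ⌈y w - (1 + A)⌉).toNat : ℕ) : ℝ) =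
          ((max (⌊y w + (1 + A)⌋ + 1 - ⌈y w - (1 + A)⌉) 0 : ℤ) : ℝ) := by
        exact_mod_cast congrArg (fun z : ℤ => (z : ℝ)) h4
      rw [h5]
      push_cast
      exact le_rfl
    refine h3.trans (max_le ?_ (by linarith))
    push_cast
    linarith
  have hsub : S ⊆ (X.filter (fun θ => ¬ B θ)).biUnion
      (fun θ : ℝ => S.filter (fun F : Fin (n + 1) → ℤ =>
        |g θ + ∑ i, (F i : ℝ) * θ ^ (i : ℕ)| ≤ η)) ∪
      W.biUnion (fun w => (Kw w).biUnion (fun k =>
        S.filter (fun F : Fin (n + 1) → ℤ => ∑ i, F i * w i = k))) := by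
    intro F hF
    obtain ⟨h1, θ, hθ, h2⟩ := hS F hF
    rw [Finset.mem_union, Finset.mem_biUnion, Finset.mem_biUnion]
    by_cases hBθ : B θ
    · right
      obtain ⟨h3, h4⟩ := hww θ hBθ
      have hwW : ww θ ∈ W := by
        rw [hW, Finset.mem_image]
        exact ⟨θ, Finset.mem_filter.mpr ⟨hθ, hBθ⟩, rfl⟩
      refine ⟨ww θ, hwW, ?_⟩
      set w := ww θ with hw
      obtain ⟨h5, h6, h7⟩ := hth w hwW
      have h8 := (hww (th w) h6).1
      rw [h7] at h8
      have hw0R : (0 : ℝ) < w 0 := by exact_mod_cast h3.1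
      -- the two points are close
      have h9 : (w 0 : ℝ) * |θ - th w| ≤ 1 / H := by
        set i1 : Fin (n + 1) := ⟨1, by omega⟩ with hi1
        have e1 := h3.2.1 i1
        have e2 := h8.2.1 i1
        simp only [hi1, pow_one] at e1 e2
        have e3 : |(w i1 : ℝ) - (w 0 : ℝ) * θ| ≤ c / H2 := by
          rw [le_div_iff₀ hH20]
          linarith
        have e4 : |(w i1 : ℝ) - (w 0 : ℝ) * th w| ≤ c / H2 := by
          rw [le_div_iff₀ hH20]
          linarith
        have e5 : (w 0 : ℝ) * |θ - th w| = |((w i1 : ℝ) - (w 0 : ℝ) * th w) -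
            ((w i1 : ℝ) - (w 0 : ℝ) * θ)| := by
          rw [← abs_of_pos hw0R, ← abs_mul, abs_of_pos hw0R]
          congr 1
          ring
        rw [e5]
        refine (abs_sub _ _).trans ?_
        have e6 : c / H2 + c / H2 = c / H := by
          rw [hH2]
          field_simp
          ring
        calc _ ≤ c / H2 + c / H2 := add_le_add e4 e3
          _ = c / H := e6
          _ ≤ 1 / H := div_le_div_of_nonneg_right hc1.le hH0.le
      have h10 : |(w 0 : ℝ) * (g θ - g (th w))| ≤ A := by
        rw [abs_mul, abs_of_pos hw0R]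
        calc (w 0 : ℝ) * |g θ - g (th w)| ≤ (w 0 : ℝ) * (A * H * |θ - th w|) :=
              mul_le_mul_of_nonneg_left (hg θ hθ (th w) h5) hw0R.le
          _ = A * H * ((w 0 : ℝ) * |θ - th w|) := by ring
          _ ≤ A * H * (1 / H) := mul_le_mul_of_nonneg_left h9 (by positivity)
          _ = A := by field_simp
      have h11 : |((∑ i, F i * w i : ℤ) : ℝ) - y w| ≤ 1 + A := by
        have e0 : ((∑ i, F i * w i : ℤ) : ℝ) = ∑ i, (F i : ℝ) * (w i : ℝ) := by
          push_cast
          rfl
        have e1 : ((∑ i, F i * w i : ℤ) : ℝ) - y w =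
            (w 0 : ℝ) * (g θ + ∑ i, (F i : ℝ) * θ ^ (i : ℕ)) +
            ∑ i, (F i : ℝ) * ((w i : ℝ) - (w 0 : ℝ) * θ ^ (i : ℕ)) -
            (w 0 : ℝ) * (g θ - g (th w)) := by
          have e2 : ∑ i, (F i : ℝ) * ((w i : ℝ) - (w 0 : ℝ) * θ ^ (i : ℕ)) =
              ∑ i, (F i : ℝ) * (w i : ℝ) - (w 0 : ℝ) * ∑ i, (F i : ℝ) * θ ^ (i : ℕ) := by
            rw [Finset.mul_sum, ← Finset.sum_sub_distrib]
            exact Finset.sum_congr rfl fun i _ => by ring
          rw [e0, e2]
          simp only [hy]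
          ring
        have e3 : |∑ i, (F i : ℝ) * ((w i : ℝ) - (w 0 : ℝ) * θ ^ (i : ℕ))| ≤
            ((n : ℝ) + 1) * c := by
          refine (Finset.abs_sum_le_sum_abs _ _).trans ?_
          calc ∑ i, |(F i : ℝ) * ((w i : ℝ) - (w 0 : ℝ) * θ ^ (i : ℕ))|
              ≤ ∑ _i : Fin (n + 1), c := by
                apply Finset.sum_le_sum
                intro i _
                rw [abs_mul]
                have e4 := h3.2.1 i
                have e5 : |(F i : ℝ)| ≤ H2 := (h1 i).trans (by linarith)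
                exact (mul_le_mul_of_nonneg_right e5 (abs_nonneg _)).trans e4
            _ = ((n : ℝ) + 1) * c := by
                rw [Finset.sum_const, card_univ, Fintype.card_fin, nsmul_eq_mul]
                push_cast
                ring
        have e4 : |(w 0 : ℝ) * (g θ + ∑ i, (F i : ℝ) * θ ^ (i : ℕ))| ≤ c := by
          rw [abs_mul, abs_of_pos hw0R]
          calc (w 0 : ℝ) * |g θ + ∑ i, (F i : ℝ) * θ ^ (i : ℕ)| ≤ (c / η) * η :=
                mul_le_mul h4 h2 (abs_nonneg _) (hw0R.le.trans h4)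
            _ = c := div_mul_cancel₀ _ hη.ne'
        rw [e1]
        refine (abs_sub _ _).trans ?_
        refine (add_le_add (abs_add_le _ _) h10).trans ?_
        linarith
      rw [Finset.mem_biUnion]
      refine ⟨∑ i, F i * w i, ?_, ?_⟩
      · simp only [hKw]
        rw [mem_Icc]
        rw [abs_le] at h11
        constructor
        · rw [Int.ceil_le]
          linarith [h11.1]
        · rw [Int.le_floor]
          linarith [h11.2]
      · rw [Finset.mem_filter]
        exact ⟨hF, rfl⟩
    · left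
      exact ⟨θ, Finset.mem_filter.mpr ⟨hθ, hBθ⟩, Finset.mem_filter.mpr ⟨hF, h2⟩⟩
  have hcard : (S.card : ℝ) ≤ ∑ θ ∈ X.filter (fun θ => ¬ B θ),
      ((S.filter (fun F : Fin (n + 1) → ℤ =>
        |g θ + ∑ i, (F i : ℝ) * θ ^ (i : ℕ)| ≤ η)).card : ℝ) +
      ∑ w ∈ W, ∑ k ∈ Kw w,
        ((S.filter (fun F : Fin (n + 1) → ℤ => ∑ i, F i * w i = k)).card : ℝ) := by
    have h1 := (Finset.card_le_card hsub).trans (Finset.card_union_le _ _)
    have h2 : (W.biUnion (fun w => (Kw w).biUnion (fun k =>
        S.filter (fun F : Fin (n + 1) → ℤ => ∑ i, F i * w i = k)))).card ≤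
        ∑ w ∈ W, ∑ k ∈ Kw w, (S.filter (fun F : Fin (n + 1) → ℤ => ∑ i, F i * w i = k)).card :=
      Finset.card_biUnion_le.trans (Finset.sum_le_sum fun w _ => Finset.card_biUnion_le)
    have h3 := h1.trans (add_le_add Finset.card_biUnion_le h2)
    exact_mod_cast h3
  have hfirst : ∑ θ ∈ X.filter (fun θ => ¬ B θ),
      ((S.filter (fun F : Fin (n + 1) → ℤ =>
        |g θ + ∑ i, (F i : ℝ) * θ ^ (i : ℕ)| ≤ η)).card : ℝ) ≤
      K1 * (X.card * (H ^ n * η)) := by
    calc _ ≤ ∑ _θ ∈ X.filter (fun θ => ¬ B θ), K1 * (H ^ n * η) := by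
          apply Finset.sum_le_sum
          intro θ hθ
          rw [Finset.mem_filter] at hθ
          rcases (S.filter (fun F : Fin (n + 1) → ℤ =>
            |g θ + ∑ i, (F i : ℝ) * θ ^ (i : ℕ)| ≤ η)).eq_empty_or_nonempty with h0 | ⟨F0, hF0⟩
          · rw [h0, Finset.card_empty, Nat.cast_zero]
            positivity
          · rw [Finset.mem_filter] at hF0
            rw [← card_diff _ F0]
            refine (hgood H2 (2 * η) θ hH21 (by linarith) (by linarith) (hX θ hθ.1) ?_ _ ?_).trans
              (le_of_eq ?_)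
            · intro hbad
              apply hθ.2
              obtain ⟨u, hu1, hu2, hu3⟩ := hbad
              refine ⟨u, hu1, hu2, hu3.trans ?_⟩
              exact div_le_div_of_nonneg_left hc.le hη (by linarith)
            · intro G hG
              rw [Finset.mem_image] at hG
              obtain ⟨F, hF, rfl⟩ := hG
              rw [Finset.mem_filter] at hF
              have e1 := (hS F hF.1).1
              have e2 := (hS F0 hF0.1).1
              constructor
              · intro i
                simp only [Pi.sub_apply]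
                push_cast
                refine (abs_sub _ _).trans ?_
                rw [hH2]
                linarith [e1 i, e2 i]
              · have e3 : ∑ i, (((F - F0) i : ℤ) : ℝ) * θ ^ (i : ℕ) =
                    (g θ + ∑ i, (F i : ℝ) * θ ^ (i : ℕ)) -
                    (g θ + ∑ i, (F0 i : ℝ) * θ ^ (i : ℕ)) := by
                  rw [add_sub_add_left_eq_sub, ← Finset.sum_sub_distrib]
                  apply Finset.sum_congr rfl
                  intro i _
                  simp only [Pi.sub_apply]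
                  push_cast
                  ring
                rw [e3]
                refine (abs_sub _ _).trans ?_
                linarith [hF.2, hF0.2]
            · rw [hK1, hH2, mul_pow, pow_succ 2 n]
              ring
      _ = ((X.filter (fun θ => ¬ B θ)).card : ℝ) * (K1 * (H ^ n * η)) := by
          rw [Finset.sum_const, nsmul_eq_mul]
      _ ≤ (X.card : ℝ) * (K1 * (H ^ n * η)) := by
          apply mul_le_mul_of_nonneg_right _ (by positivity)
          exact_mod_cast Finset.card_filter_le _ _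
      _ = _ := by ring
  have hsecond : ∑ w ∈ W, ∑ k ∈ Kw w,
      ((S.filter (fun F : Fin (n + 1) → ℤ => ∑ i, F i * w i = k)).card : ℝ) ≤
      K2 * (H ^ (n + 1) * (1 / (η * H ^ n)) ^ al n) := by
    have h1 : ∀ w ∈ W, |th w| ≤ R ∧ Minl H2 c (th w) w ∧ (w 0 : ℝ) ≤ c / η := by
      intro w hw
      obtain ⟨h2, h3, h4⟩ := hth w hw
      obtain ⟨h5, h6⟩ := hww (th w) h3
      rw [h4] at h5 h6
      exact ⟨hX _ h2, h5, h6⟩
    calc _ ≤ ∑ w ∈ W, (2 * A + 3) * (C2 * (H2 ^ n / (w 0 : ℝ))) := by
          apply Finset.sum_le_sum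
          intro w hw
          obtain ⟨h2, h3, _⟩ := h1 w hw
          have hw0R : (0 : ℝ) < w 0 := by exact_mod_cast h3.1
          calc _ ≤ ∑ _k ∈ Kw w, C2 * (H2 ^ n / (w 0 : ℝ)) := by
                apply Finset.sum_le_sum
                intro k _
                rcases (S.filter (fun F : Fin (n + 1) → ℤ =>
                  ∑ i, F i * w i = k)).eq_empty_or_nonempty with h0 | ⟨F0, hF0⟩
                · rw [h0, Finset.card_empty, Nat.cast_zero]
                  positivity
                · rw [Finset.mem_filter] at hF0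
                  rw [← card_diff _ F0]
                  apply horth H2 (th w) hH21 h2 w h3
                  intro G hG
                  rw [Finset.mem_image] at hG
                  obtain ⟨F, hF, rfl⟩ := hG
                  rw [Finset.mem_filter] at hF
                  have e1 := (hS F hF.1).1
                  have e2 := (hS F0 hF0.1).1
                  constructor
                  · intro i
                    simp only [Pi.sub_apply]
                    push_cast
                    refine (abs_sub _ _).trans ?_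
                    rw [hH2]
                    linarith [e1 i, e2 i]
                  · have e3 : ∑ i, (F - F0) i * w i = 0 := by
                      have e4 : ∑ i, (F - F0) i * w i = ∑ i, F i * w i - ∑ i, F0 i * w i := by
                        rw [← Finset.sum_sub_distrib]
                        apply Finset.sum_congr rfl
                        intro i _
                        simp only [Pi.sub_apply]
                        ring
                      rw [e4, hF.2, hF0.2, sub_self]
                    exact_mod_cast e3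
            _ = ((Kw w).card : ℝ) * (C2 * (H2 ^ n / (w 0 : ℝ))) := by
                rw [Finset.sum_const, nsmul_eq_mul]
            _ ≤ _ := mul_le_mul_of_nonneg_right (hKcard w) (by positivity)
      _ = (2 * A + 3) * (C2 * ∑ w ∈ W, H2 ^ n / (w 0 : ℝ)) := by
          rw [Finset.mul_sum, Finset.mul_sum]
      _ ≤ (2 * A + 3) * (C2 * (C3 * (H2 ^ (n + 1) * (c / η / H2 ^ n) ^ al n))) := by
          apply mul_le_mul_of_nonneg_left _ (by positivity)
          apply mul_le_mul_of_nonneg_left _ hC2.le
          exact hsum H2 (c / η) hH21 (by positivity) th W h1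
      _ ≤ (2 * A + 3) * (C2 * (C3 * (H2 ^ (n + 1) * (1 / (η * H ^ n)) ^ al n))) := by
          have h7 : c / η / H2 ^ n ≤ 1 / (η * H ^ n) := by
            rw [div_div]
            apply div_le_div₀ (by norm_num) hc1.le (by positivity)
            apply mul_le_mul_of_nonneg_left _ hη.le
            exact pow_le_pow_left₀ hH0.le (by linarith) _
          have h8 : (c / η / H2 ^ n) ^ al n ≤ (1 / (η * H ^ n)) ^ al n :=
            Real.rpow_le_rpow (by positivity) h7 hal.le
          gcongr
      _ = _ := by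
          rw [hK2, hH2, mul_pow]
          ring
  calc (S.card : ℝ) ≤ K1 * (X.card * (H ^ n * η)) +
        K2 * (H ^ (n + 1) * (1 / (η * H ^ n)) ^ al n) := by linarith
    _ ≤ _ := by
        have h1 : 0 ≤ H ^ (n + 1) * (1 / (η * H ^ n)) ^ al n := by positivity
        have e1 : (3 ^ (n + 1) + K1 + K2) *
            (X.card * (H ^ n * η) + H ^ (n + 1) * (1 / (η * H ^ n)) ^ al n) =
            K1 * (X.card * (H ^ n * η)) + K2 * (H ^ (n + 1) * (1 / (η * H ^ n)) ^ al n) +
            ((3 ^ (n + 1) + K2) * (X.card * (H ^ n * η)) +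
              (3 ^ (n + 1) + K1) * (H ^ (n + 1) * (1 / (η * H ^ n)) ^ al n)) := by ring
        rw [e1]
        have h2 : 0 ≤ (3 ^ (n + 1) + K2) * (X.card * (H ^ n * η)) := by positivity
        have h3 : 0 ≤ (3 ^ (n + 1) + K1) * (H ^ (n + 1) * (1 / (η * H ^ n)) ^ al n) := by
          positivity
        linarith

end Pool.Agent.V8H9.LD
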