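import Pool.Agent.V8H9.LD.BigA
import Pool.Agent.V8H9.LD.AsmA
import Pool.Agent.V8H9.LC.Fin

/-!
# Almost all real algebraic integers of given degree
-/

set_option autoImplicit false

namespace Pool.Agent.V8H9.LD

open Finset Filter Pool.Agent.V8H9.LC
open Pool.Agent.Results.MP_c307ca_nt.AlmostAllToHeight (ev box mem_box ev_eq_aeval polZ polZ_coeff)

/-- `ξ` is a root of an irreducible monic integer polynomial of degree `d` and height at most `H` -/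
def AlgI (d H : ℕ) (ξ : ℝ) : Prop :=
  ∃ P : Polynomial ℤ, P.Monic ∧ P.natDegree = d ∧ (∀ i, |P.coeff i| ≤ (H : ℤ)) ∧
    Irreducible (P.map (Int.castRingHom ℚ)) ∧ Polynomial.aeval ξ P = 0

theorem AlgI.algN {d H : ℕ} {ξ : ℝ} (h : AlgI d H ξ) : AlgN d H ξ := by
  obtain ⟨P, _, h2, h3, h4, h5⟩ := h
  exact ⟨P, h2, h3, h4, h5⟩

theorem ev_monic (n : ℕ) (P : Polynomial ℤ) (hP : P.Monic) (hd : P.natDegree = n + 1) (y : ℝ) :
    y ^ (n + 1) + ev (fun i : Fin (n + 1) => P.coeff i) y = Polynomial.aeval y P := by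
  rw [← ev_eq_aeval (n + 1) P hd]
  unfold ev
  rw [Fin.sum_univ_castSucc (n := n + 1)]
  have h1 : P.coeff (n + 1) = 1 := by
    rw [← hd]
    exact hP
  simp only [Fin.val_castSucc, Fin.val_last, h1, Int.cast_one, one_mul]
  ring

open Polynomial in
/-- from monic polynomials to their roots -/
theorem roots_count_monic (n H : ℕ) (Φ : ℝ → Prop) (B : ℝ)
    (hB : ∀ BB : Finset (Fin (n + 1) → ℤ), (∀ a ∈ BB, (∀ i, |a i| ≤ (H : ℤ)) ∧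
      ∃ ξ : ℝ, ξ ^ (n + 1) + ev a ξ = 0 ∧ Φ ξ) → (BB.card : ℝ) ≤ B) :
    {ξ : ℝ | AlgI (n + 1) H ξ ∧ Φ ξ}.Finite ∧
      ({ξ : ℝ | AlgI (n + 1) H ξ ∧ Φ ξ}.ncard : ℝ) ≤ B * (n + 1) := by
  classical
  set S : Set ℝ := {ξ : ℝ | AlgI (n + 1) H ξ ∧ Φ ξ} with hS
  set BB : Finset (Fin (n + 1) → ℤ) := (box (n + 1) (H : ℤ)).filter (fun a =>
    ∃ P : Polynomial ℤ, (fun i : Fin (n + 1) => P.coeff i) = a ∧ P.Monic ∧ P.natDegree = n + 1 ∧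
      (∀ i, |P.coeff i| ≤ (H : ℤ)) ∧ Irreducible (P.map (Int.castRingHom ℚ)) ∧
      ∃ ξ : ℝ, Polynomial.aeval ξ P = 0 ∧ Φ ξ) with hBB
  have hcount := hB BB (by
    intro a ha
    rw [hBB, Finset.mem_filter] at ha
    obtain ⟨_, P, hPa, hPm, hPd, hPH, hPirr, ξ, hξ, hΦ⟩ := ha
    subst hPa
    refine ⟨fun i => hPH i, ξ, ?_, hΦ⟩
    rw [ev_monic n P hPm hPd]
    exact hξ)
  -- the polynomial with given lower coefficients
  set Q : (Fin (n + 1) → ℤ) → ℤ[X] := fun a => X ^ (n + 1) + polZ a with hQ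
  have hQP : ∀ P : ℤ[X], P.Monic → P.natDegree = n + 1 →
      Q (fun i : Fin (n + 1) => P.coeff i) = P := by
    intro P hPm hPd
    have h1 := polZ_coeff (n + 1) P hPd
    have h2 : polZ (fun i : Fin (n + 1 + 1) => P.coeff i) =
        polZ (fun i : Fin (n + 1) => P.coeff i) + C (P.coeff (n + 1)) * X ^ (n + 1) := by
      unfold polZ
      rw [Fin.sum_univ_castSucc]
      simp only [Fin.val_castSucc, Fin.val_last]
    have h3 : P.coeff (n + 1) = 1 := by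
      rw [← hPd]
      exact hPm
    rw [h2, h3, map_one, one_mul] at h1
    simp only [hQ]
    rw [add_comm]
    exact h1
  set U : Finset ℝ := BB.biUnion (fun a => ((Q a).map (Int.castRingHom ℝ)).roots.toFinset)
    with hU
  have hSU : S ⊆ (U : Set ℝ) := by
    rintro ξ ⟨⟨P, hPm, hPd, hPH, hPirr, hξ⟩, hpq⟩
    rw [hU, Finset.mem_coe, Finset.mem_biUnion]
    refine ⟨fun i : Fin (n + 1) => P.coeff i, ?_, ?_⟩
    · rw [hBB, Finset.mem_filter]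
      exact ⟨mem_box fun i => hPH i, P, rfl, hPm, hPd, hPH, hPirr, ξ, hξ, hpq⟩
    · rw [hQP P hPm hPd, Multiset.mem_toFinset, Polynomial.mem_roots',
        Polynomial.IsRoot, Polynomial.eval_map]
      refine ⟨?_, hξ⟩
      exact (hPm.map _).ne_zero
  have hUcard : U.card ≤ BB.card * (n + 1) := by
    refine Finset.card_biUnion_le_card_mul _ _ _ fun a ha => ?_
    rw [hBB, Finset.mem_filter] at ha
    obtain ⟨_, P, hPa, hPm, hPd, _⟩ := ha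
    have hpa : Q a = P := by
      rw [← hPa]
      exact hQP P hPm hPd
    rw [hpa]
    refine (Multiset.toFinset_card_le _).trans ((Polynomial.card_roots' _).trans ?_)
    exact Polynomial.natDegree_map_le.trans hPd.le
  refine ⟨U.finite_toSet.subset hSU, ?_⟩
  have h1 : S.ncard ≤ U.card := by
    rw [← Set.ncard_coe_finset]
    exact Set.ncard_le_ncard hSU U.finite_toSet
  have h2 : (S.ncard : ℝ) ≤ (BB.card : ℝ) * (n + 1) := by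
    exact_mod_cast h1.trans hUcard
  exact h2.trans (mul_le_mul_of_nonneg_right hcount (by positivity))

/-- the coefficients of `X ^ (n + 1)` -/
def bm (n : ℕ) : Fin (n + 1 + 1) → ℤ := fun i => if i = Fin.last (n + 1) then 1 else 0

theorem bm_le (n H : ℕ) (hH : 1 ≤ H) : ∀ i, |bm n i| ≤ ((1 * H : ℕ) : ℤ) := by
  intro i
  unfold bm
  split_ifs
  · rw [abs_one]
    have : (1 : ℤ) ≤ (H : ℤ) := by exact_mod_cast hH
    simpa using this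
  · rw [abs_zero]
    positivity

theorem ev_bm (n : ℕ) (y : ℝ) : ev (bm n) y = y ^ (n + 1) := by
  unfold ev bm
  rw [Fin.sum_univ_castSucc]
  have h1 : ∀ i : Fin (n + 1), ¬ (Fin.castSucc i = Fin.last (n + 1)) := fun i =>
    (Fin.castSucc_lt_last i).ne
  simp [h1]

/-- monic polynomials with roots in a bounded interval -/
theorem monic_bounded (n T : ℕ) (hn : 1 ≤ n) (κ : ℝ) (hκ : κ < ((n : ℝ) + 1) / 2)
    (ψ : ℕ → ℝ) (hψ0 : ∀ q, 0 ≤ ψ q) (hψa : Antitone ψ) (hψs : Summable ψ) (η : ℝ) (hη : 0 < η) :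
    ∃ c : ℝ, 0 < c ∧ ∀ᶠ H : ℕ in atTop, ∀ BB : Finset (Fin (n + 1) → ℤ),
      (∀ a ∈ BB, (∀ i, |a i| ≤ (H : ℤ)) ∧
        ∃ ξ : ℝ, ξ ^ (n + 1) + ev a ξ = 0 ∧ |ξ| ≤ T ∧
          ∃ (p : ℤ) (q : ℕ), 1 ≤ q ∧ (q : ℝ) ≤ (H : ℝ) ^ κ ∧
          |ξ - (p : ℝ) / q| ≤ c * (ψ q / q)) →
      (BB.card : ℝ) ≤ η * (H : ℝ) ^ (n + 1) := by
  obtain ⟨c, hc, h⟩ := approx_aff n (T + n + 1) 0 (n + 1) 1 hn (by omega) (by omega) κ hκ ψ hψ0 hψa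
    hψs η hη
  refine ⟨c, hc, ?_⟩
  filter_upwards [h, eventually_ge_atTop 1] with H hH hH1
  intro BB hB
  apply hH (bm n) (bm_le n H hH1) BB
  intro a ha
  obtain ⟨h1, ξ, h2, h3, h4⟩ := hB a ha
  refine ⟨h1, ξ, ?_, Or.inl rfl, ?_, h4⟩
  · push_cast
    have : (0 : ℝ) ≤ n := Nat.cast_nonneg n
    linarith
  · unfold G
    rw [ev_bm, pow_zero, one_mul]
    exact h2

/-- monic polynomials, all roots -/
theorem monic_all (n : ℕ) (hn : 1 ≤ n) (κ : ℝ) (hκ : κ < (n : ℝ) / 2)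
    (ψ : ℕ → ℝ) (hψ0 : ∀ q, 0 ≤ ψ q) (hψa : Antitone ψ) (hψs : Summable ψ) (η : ℝ) (hη : 0 < η) :
    ∃ c : ℝ, 0 < c ∧ ∀ᶠ H : ℕ in atTop, ∀ BB : Finset (Fin (n + 1) → ℤ),
      (∀ a ∈ BB, (∀ i, |a i| ≤ (H : ℤ)) ∧
        ∃ ξ : ℝ, ξ ^ (n + 1) + ev a ξ = 0 ∧
          ∃ (p : ℤ) (q : ℕ), 1 ≤ q ∧ (q : ℝ) ≤ (H : ℝ) ^ κ ∧
          |ξ - (p : ℝ) / q| ≤ c * (ψ q / q)) →
      (BB.card : ℝ) ≤ η * (H : ℝ) ^ (n + 1) := by
  classical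
  set T : ℕ := ⌈3 * (7 * 3 ^ n : ℝ) / η⌉₊ + 2 with hT
  have hT2 : 2 ≤ T := by omega
  have hT3 : (7 * 3 ^ n : ℝ) / T ≤ η / 3 := by
    have h1 := Nat.le_ceil (3 * (7 * 3 ^ n : ℝ) / η)
    have h2 : 3 * (7 * 3 ^ n : ℝ) / η ≤ T := by
      rw [hT]
      push_cast
      linarith
    have h3 : (0 : ℝ) < T := by positivity
    rw [div_le_iff₀ hη] at h2
    rw [div_le_div_iff₀ h3 (by norm_num)]
    linarith
  obtain ⟨c1, hc1, h1⟩ := monic_bounded n T hn κ (by linarith) ψ hψ0 hψa hψs (η / 3)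
    (by positivity)
  obtain ⟨c2, hc2, h2⟩ := approx_big n T hn hT2 κ hκ ψ hψ0 hψa hψs (η / 3) (by positivity)
  refine ⟨min c1 c2, lt_min hc1 hc2, ?_⟩
  filter_upwards [h1, h2, eventually_ge_atTop 1] with H hH1 hH2 hH
  intro BB hB
  have hHp : 0 < (H : ℝ) ^ (n + 1) := by
    have : (0 : ℝ) < H := by exact_mod_cast hH
    positivity
  have hpos : ∀ q : ℕ, 0 ≤ ψ q / q := fun q => div_nonneg (hψ0 q) (Nat.cast_nonneg q)
  set B1 : Finset (Fin (n + 1) → ℤ) := BB.filter (fun a => ∃ ξ : ℝ, ξ ^ (n + 1) + ev a ξ = 0 ∧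
    |ξ| ≤ T ∧ ∃ (p : ℤ) (q : ℕ), 1 ≤ q ∧ (q : ℝ) ≤ (H : ℝ) ^ κ ∧
          |ξ - (p : ℝ) / q| ≤ c1 * (ψ q / q)) with hB1
  set B2 : Finset (Fin (n + 1) → ℤ) := BB.filter (fun a => ∃ ξ : ℝ, (T : ℝ) < |ξ| ∧
    ξ ^ (n + 1) + ev a ξ = 0 ∧
    ∃ (p : ℤ) (q : ℕ), 1 ≤ q ∧ (q : ℝ) ≤ (H : ℝ) ^ κ ∧
          |ξ - (p : ℝ) / q| ≤ c2 * (ψ q / q)) with hB2
  have hsub : BB ⊆ B1 ∪ B2 := by
    intro a ha
    obtain ⟨_, ξ, h3, p, q, hq1, hqκ, hle⟩ := hB a ha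
    rw [Finset.mem_union]
    rcases le_or_gt |ξ| (T : ℝ) with hξ | hξ
    · left
      rw [hB1, Finset.mem_filter]
      exact ⟨ha, ξ, h3, hξ, p, q, hq1, hqκ,
        hle.trans (mul_le_mul_of_nonneg_right (min_le_left _ _) (hpos q))⟩
    · right
      rw [hB2, Finset.mem_filter]
      exact ⟨ha, ξ, hξ, h3, p, q, hq1, hqκ,
        hle.trans (mul_le_mul_of_nonneg_right (min_le_right _ _) (hpos q))⟩
  have h3 := hH1 B1 (by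
    intro a ha
    rw [hB1, Finset.mem_filter] at ha
    exact ⟨(hB a ha.1).1, ha.2⟩)
  have h4 := hH2 B2 (by
    intro a ha
    rw [hB2, Finset.mem_filter] at ha
    exact ⟨(hB a ha.1).1, ha.2⟩)
  have h5 : (BB.card : ℝ) ≤ B1.card + B2.card := by
    exact_mod_cast (Finset.card_le_card hsub).trans (Finset.card_union_le _ _)
  have h6 : (H : ℝ) ^ (n + 1) * (7 * 3 ^ n / T + η / 3) ≤ (H : ℝ) ^ (n + 1) * (η / 3 + η / 3) :=
    mul_le_mul_of_nonneg_left (by linarith) hHp.le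
  linarith

/-- from large heights to all heights -/
theorem all_heights (n : ℕ) (hn : 1 ≤ n) (κ : ℝ) (Ψ : ℝ → Prop)
    (ψ : ℕ → ℝ) (hψ0 : ∀ q, 0 ≤ ψ q) (hψa : Antitone ψ)
    (h : ∀ η : ℝ, 0 < η → ∃ c : ℝ, 0 < c ∧ ∀ᶠ H : ℕ in atTop, ∀ BB : Finset (Fin (n + 1) → ℤ),
      (∀ a ∈ BB, (∀ i, |a i| ≤ (H : ℤ)) ∧
        ∃ ξ : ℝ, ξ ^ (n + 1) + ev a ξ = 0 ∧ Ψ ξ ∧
          ∃ (p : ℤ) (q : ℕ), 1 ≤ q ∧ (q : ℝ) ≤ (H : ℝ) ^ κ ∧
          |ξ - (p : ℝ) / q| ≤ c * (ψ q / q)) →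
      (BB.card : ℝ) ≤ η * (H : ℝ) ^ (n + 1)) (η : ℝ) (hη : 0 < η) :
    ∃ c : ℝ, 0 < c ∧ ∀ H : ℕ, 1 ≤ H →
      {ξ : ℝ | AlgI (n + 1) H ξ ∧ Ψ ξ ∧ ∃ (p : ℤ) (q : ℕ), 1 ≤ q ∧ (q : ℝ) ≤ (H : ℝ) ^ κ ∧
        |ξ - (p : ℝ) / q| ≤ c * (ψ q / q)}.Finite ∧
      ({ξ : ℝ | AlgI (n + 1) H ξ ∧ Ψ ξ ∧ ∃ (p : ℤ) (q : ℕ), 1 ≤ q ∧ (q : ℝ) ≤ (H : ℝ) ^ κ ∧
        |ξ - (p : ℝ) / q| ≤ c * (ψ q / q)}.ncard : ℝ) ≤ η * (H : ℝ) ^ (n + 1) := by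
  obtain ⟨c1, hc1, hev⟩ := h (η / (n + 1)) (by positivity)
  obtain ⟨H0, hH0⟩ := eventually_atTop.mp hev
  obtain ⟨c2, hc2, hfew⟩ := few_heights (n + 1) (by omega) κ ψ hψ0 hψa H0
  refine ⟨min c1 c2, lt_min hc1 hc2, fun H hH1 => ?_⟩
  have hHp : 0 ≤ (H : ℝ) ^ (n + 1) := by positivity
  set Φ : ℝ → Prop := fun ξ => Ψ ξ ∧ ∃ (p : ℤ) (q : ℕ), 1 ≤ q ∧ (q : ℝ) ≤ (H : ℝ) ^ κ ∧
        |ξ - (p : ℝ) / q| ≤ min c1 c2 * (ψ q / q) with hΦ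
  have hpos : ∀ q : ℕ, 0 ≤ ψ q / q := fun q => div_nonneg (hψ0 q) (Nat.cast_nonneg q)
  rcases lt_or_ge H H0 with hHH | hHH
  · have hempty : {ξ : ℝ | AlgI (n + 1) H ξ ∧ Φ ξ} = ∅ := by
      rw [Set.eq_empty_iff_forall_notMem]
      rintro ξ ⟨hP, _, p, q, hq1, hqκ, hle⟩
      have h1 := hfew H hHH ξ hP.algN p q hq1 hqκ
      have h2 : min c1 c2 * (ψ q / q) ≤ c2 * (ψ q / q) :=
        mul_le_mul_of_nonneg_right (min_le_right _ _) (hpos q)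
      linarith
    rw [hempty]
    refine ⟨Set.finite_empty, ?_⟩
    rw [Set.ncard_empty, Nat.cast_zero]
    positivity
  · have h1 := roots_count_monic n H Φ (η / (n + 1) * (H : ℝ) ^ (n + 1)) (by
      intro BB hBB
      apply hH0 H hHH BB
      intro a ha
      obtain ⟨h2, ξ, h4, h5, p, q, h6, h7, h8⟩ := hBB a ha
      refine ⟨h2, ξ, h4, h5, p, q, h6, h7, h8.trans ?_⟩
      exact mul_le_mul_of_nonneg_right (min_le_left _ _) (hpos q))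
    refine ⟨h1.1, h1.2.trans (le_of_eq ?_)⟩
    field_simp

end Pool.Agent.V8H9.LD
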