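import Pool.Agent.V8H9.LD.CoreA
import Pool.Agent.V8H9.LC.Asm

/-!
# Values of the members of an affine family
-/

set_option autoImplicit false

namespace Pool.Agent.V8H9.LD

open Finset Pool.Agent.V8H9.LC
open Pool.Agent.Results.MP_c307ca_nt.AlmostAllToHeight (ev KK KK_nonneg ev_sub)

/-- the value of `∑ b i X ^ i + X ^ s ∑ a i X ^ i` -/
noncomputable def G {D n : ℕ} (b : Fin (D + 1) → ℤ) (s : ℕ) (a : Fin (n + 1) → ℤ) (x : ℝ) : ℝ :=
  ev b x + x ^ s * ev a x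

theorem ev_le (n T H : ℕ) (a : Fin (n + 1) → ℤ) (ha : ∀ i, |a i| ≤ (H : ℤ)) (y : ℝ)
    (hy : |y| ≤ T + 1) : |ev a y| ≤ ((n + 1) * (T + 1 : ℝ) ^ n) * H := by
  unfold ev
  refine (Finset.abs_sum_le_sum_abs _ _).trans ?_
  have hT1 : (1 : ℝ) ≤ T + 1 := by
    have : (0 : ℝ) ≤ T := Nat.cast_nonneg T
    linarith
  have h1 : ∀ i ∈ (Finset.univ : Finset (Fin (n + 1))),
      |(a i : ℝ) * y ^ (i : ℕ)| ≤ H * (T + 1 : ℝ) ^ n := by
    intro i _
    rw [abs_mul, abs_pow]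
    have h2 : |(a i : ℝ)| ≤ H := by exact_mod_cast ha i
    have hi : (i : ℕ) ≤ n := Nat.lt_succ_iff.mp i.2
    have h3 : |y| ^ (i : ℕ) ≤ (T + 1 : ℝ) ^ n :=
      (pow_le_pow_left₀ (abs_nonneg _) hy _).trans (pow_le_pow_right₀ hT1 hi)
    exact mul_le_mul h2 h3 (by positivity) (by positivity)
  refine (Finset.sum_le_sum h1).trans ?_
  rw [Finset.sum_const, Finset.card_univ, Fintype.card_fin, nsmul_eq_mul]
  push_cast
  apply le_of_eq
  ring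

/-- the constant for the variation of `G` -/
noncomputable def KG (D n s A T : ℕ) : ℝ :=
  KK D T * A + (T + 1 : ℝ) ^ s * KK n T + (s * (T + 1 : ℝ) ^ s) * ((n + 1) * (T + 1 : ℝ) ^ n)

theorem KG_nonneg (D n s A T : ℕ) : 0 ≤ KG D n s A T := by
  have h1 := KK_nonneg D T
  have h2 := KK_nonneg n T
  unfold KG
  positivity

theorem G_sub (D n s A T H : ℕ) (b : Fin (D + 1) → ℤ) (hb : ∀ i, |b i| ≤ ((A * H : ℕ) : ℤ))
    (a : Fin (n + 1) → ℤ) (ha : ∀ i, |a i| ≤ (H : ℤ)) (x ξ : ℝ) (hx : |x| ≤ T + 1)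
    (hξ : |ξ| ≤ T + 1) : |G b s a x - G b s a ξ| ≤ KG D n s A T * H * |x - ξ| := by
  have hT1 : (1 : ℝ) ≤ T + 1 := by
    have : (0 : ℝ) ≤ T := Nat.cast_nonneg T
    linarith
  have h1 := ev_sub D T (A * H) b hb x ξ hx hξ
  have h2 := ev_sub n T H a ha x ξ hx hξ
  have h3 := ev_le n T H a ha ξ hξ
  have h4 := pow_sub_le hT1 hx hξ s
  have h5 : G b s a x - G b s a ξ = (ev b x - ev b ξ) + x ^ s * (ev a x - ev a ξ) +
      (x ^ s - ξ ^ s) * ev a ξ := by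
    unfold G
    ring
  have h6 : |x ^ s * (ev a x - ev a ξ)| ≤ (T + 1 : ℝ) ^ s * (KK n T * H * |x - ξ|) := by
    rw [abs_mul, abs_pow]
    exact mul_le_mul (pow_le_pow_left₀ (abs_nonneg _) hx _) h2 (abs_nonneg _) (by positivity)
  have h7 : |(x ^ s - ξ ^ s) * ev a ξ| ≤
      (s * (T + 1 : ℝ) ^ s * |x - ξ|) * (((n + 1) * (T + 1 : ℝ) ^ n) * H) := by
    rw [abs_mul]
    exact mul_le_mul h4 h3 (abs_nonneg _) (by positivity)
  rw [h5]
  refine (abs_add_le _ _).trans ((add_le_add ((abs_add_le _ _).trans (add_le_add h1 h6)) h7).trans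
    (le_of_eq ?_))
  unfold KG
  push_cast
  ring

/-- the constant for the variation of the quotient -/
noncomputable def KQ (D s A T : ℕ) (ρ : ℝ) : ℝ :=
  (KK D T * A * (T + 1 : ℝ) ^ s + ((D + 1) * (T + 1 : ℝ) ^ D * A) * (s * (T + 1 : ℝ) ^ s)) /
    (ρ ^ s) ^ 2

theorem quot_sub (D s A T H : ℕ) (ρ : ℝ) (hρ : 0 < ρ) (b : Fin (D + 1) → ℤ)
    (hb : ∀ i, |b i| ≤ ((A * H : ℕ) : ℤ)) (x y : ℝ) (hx : |x| ≤ T + 1) (hy : |y| ≤ T + 1)
    (hx2 : ρ ^ s ≤ |x ^ s|) (hy2 : ρ ^ s ≤ |y ^ s|) :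
    |ev b x / x ^ s - ev b y / y ^ s| ≤ KQ D s A T ρ * H * |x - y| := by
  have hT1 : (1 : ℝ) ≤ T + 1 := by
    have : (0 : ℝ) ≤ T := Nat.cast_nonneg T
    linarith
  have hρs : 0 < ρ ^ s := by positivity
  have hx0 : x ^ s ≠ 0 := by
    intro h
    rw [h, abs_zero] at hx2
    linarith
  have hy0 : y ^ s ≠ 0 := by
    intro h
    rw [h, abs_zero] at hy2
    linarith
  have h1 := ev_sub D T (A * H) b hb x y hx hy
  have h3 := ev_le D T (A * H) b hb y hy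
  have h4 := pow_sub_le hT1 hy hx s
  have h5 : ev b x / x ^ s - ev b y / y ^ s =
      ((ev b x - ev b y) * y ^ s + ev b y * (y ^ s - x ^ s)) / (x ^ s * y ^ s) := by
    field_simp
    ring
  have h6 : |(ev b x - ev b y) * y ^ s| ≤ (KK D T * ((A * H : ℕ) : ℝ) * |x - y|) * (T + 1 : ℝ) ^ s := by
    rw [abs_mul, abs_pow]
    have h7 := KK_nonneg D T
    exact mul_le_mul h1 (pow_le_pow_left₀ (abs_nonneg _) hy _) (by positivity) (by positivity)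
  have h7 : |ev b y * (y ^ s - x ^ s)| ≤
      (((D + 1) * (T + 1 : ℝ) ^ D) * ((A * H : ℕ) : ℝ)) * (s * (T + 1 : ℝ) ^ s * |x - y|) := by
    rw [abs_mul]
    rw [abs_sub_comm x y]
    exact mul_le_mul h3 h4 (abs_nonneg _) (by positivity)
  rw [h5, abs_div, abs_mul]
  have h8 : (ρ ^ s) ^ 2 ≤ |x ^ s| * |y ^ s| := by
    rw [sq]
    exact mul_le_mul hx2 hy2 hρs.le (abs_nonneg _)
  have h9 : 0 ≤ KK D T := KK_nonneg D T
  calc |(ev b x - ev b y) * y ^ s + ev b y * (y ^ s - x ^ s)| / (|x ^ s| * |y ^ s|)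
      ≤ ((KK D T * ((A * H : ℕ) : ℝ) * |x - y|) * (T + 1 : ℝ) ^ s +
        (((D + 1) * (T + 1 : ℝ) ^ D) * ((A * H : ℕ) : ℝ)) * (s * (T + 1 : ℝ) ^ s * |x - y|)) /
        (ρ ^ s) ^ 2 := by
        apply div_le_div₀ (by positivity) _ (by positivity) h8
        exact (abs_add_le _ _).trans (add_le_add h6 h7)
    _ = _ := by
        unfold KQ
        push_cast
        ring

end Pool.Agent.V8H9.LD
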